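import Pool.Agent.H104Z.Berg.Red

set_option autoImplicit false
set_option linter.unusedSectionVars false

/-! An irreducible family is independent and tight. -/

namespace Pool.Agent.H104Z.Berg

open Finset Submodule

variable {K A I Λ F C N : Type*} [Field K] [Ring A] [Algebra K A]
  [AddCommGroup N] [Module A N] [Module K N] [IsScalarTower K A N]

/-- Multiplication by a ring element as a linear map over the field. -/
def act (K : Type*) [Field K] [Algebra K A] [Module K N] [IsScalarTower K A N] (a : A) :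
    N →ₗ[K] N where
  toFun v := a • v
  map_add' := smul_add a
  map_smul' c v := smul_comm a c v

section G

variable (K) (B : Blocks A I Λ) (s : Finset ℕ) (f : ℕ → Item I Λ F) (b : ℕ → N)

open Classical in
/-- The span of the generators with given level, place and object. -/
noncomputable def items (n : ℕ) (q : Option (Λ × Bool)) (o : I) : Submodule K N :=
  span K (b '' (s.filter (fun i => (f i).n = n ∧ (f i).q = q ∧ (f i).o = o) : Finset ℕ))

/-- The formal filtration at a leaf port. -/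
noncomputable def Gp (g : I → Submodule K N) (n : ℕ) (ρ : Λ) (c : Bool) : Submodule K N :=
  g (B.L ρ c) ⊔ (g (B.X ρ)).map (act K (B.pr ρ c)) ⊔ items K s f b n (some (ρ, c)) (B.L ρ c)

/-- The formal filtration at a port. -/
noncomputable def GP (g : I → Submodule K N) (n : ℕ) : Λ × Option Bool → Submodule K N
  | (ρ, none) => (Gp K B s f b g n ρ true).map (act K (B.io ρ true)) ⊔
      (Gp K B s f b g n ρ false).map (act K (B.io ρ false))
  | (ρ, some c) => Gp K B s f b g n ρ c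

/-- The formal filtration at an object. -/
noncomputable def G : ℕ → I → Submodule K N
  | 0 => fun _ => ⊥
  | n + 1 => fun o => G n o ⊔ (⨆ P : {P // B.pobj P = o}, GP K B s f b (G n) n P.1) ⊔
      items K s f b n none o

end G

variable {B : Blocks A I Λ} {s : Finset ℕ} {f : ℕ → Item I Λ F} {b : ℕ → N}

theorem mem_Gp {g : I → Submodule K N} {n : ℕ} {ρ : Λ} {c : Bool} {a : N} :
    a ∈ Gp K B s f b g n ρ c ↔ ∃ a1 ∈ g (B.L ρ c), ∃ u ∈ g (B.X ρ),
      ∃ t ∈ items K s f b n (some (ρ, c)) (B.L ρ c), a = a1 + B.pr ρ c • u + t := by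
  unfold Gp
  simp only [Submodule.mem_sup, Submodule.mem_map]
  constructor
  · rintro ⟨_, ⟨a1, h1, _, ⟨u, hu, rfl⟩, rfl⟩, t, ht, rfl⟩
    exact ⟨a1, h1, u, hu, t, ht, rfl⟩
  · rintro ⟨a1, h1, u, hu, t, ht, rfl⟩
    exact ⟨_, ⟨a1, h1, _, ⟨u, hu, rfl⟩, rfl⟩, t, ht, rfl⟩

theorem mem_GPc {g : I → Submodule K N} {n : ℕ} {ρ : Λ} {a : N} :
    a ∈ GP K B s f b g n (ρ, none) ↔ ∃ y ∈ Gp K B s f b g n ρ true, ∃ z ∈ Gp K B s f b g n ρ false,
      a = B.io ρ true • y + B.io ρ false • z := by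
  unfold GP
  simp only [Submodule.mem_sup, Submodule.mem_map]
  constructor
  · rintro ⟨_, ⟨y, hy, rfl⟩, _, ⟨z, hz, rfl⟩, rfl⟩
    exact ⟨y, hy, z, hz, rfl⟩
  · rintro ⟨y, hy, z, hz, rfl⟩
    exact ⟨_, ⟨y, hy, rfl⟩, _, ⟨z, hz, rfl⟩, rfl⟩

theorem mem_G_succ {n : ℕ} {o : I} {a : N} :
    a ∈ G K B s f b (n + 1) o ↔ ∃ a0 ∈ G K B s f b n o, ∃ g : {P // B.pobj P = o} →₀ N,
      (∀ P, g P ∈ GP K B s f b (G K B s f b n) n P.1) ∧ ∃ t ∈ items K s f b n none o,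
        a = a0 + (∑ P ∈ g.support, g P) + t := by
  rw [G]
  simp only [Submodule.mem_sup, mem_iSup_iff_exists_finsupp]
  constructor
  · rintro ⟨_, ⟨a0, h0, _, ⟨g, hg, rfl⟩, rfl⟩, t, ht, rfl⟩
    exact ⟨a0, h0, g, hg, t, ht, rfl⟩
  · rintro ⟨a0, h0, g, hg, t, ht, rfl⟩
    exact ⟨_, ⟨a0, h0, _, ⟨g, hg, rfl⟩, rfl⟩, t, ht, rfl⟩

theorem G_le_succ (n : ℕ) (o : I) : G K B s f b n o ≤ G K B s f b (n + 1) o :=
  le_sup_left.trans le_sup_left

theorem G_mono {n m : ℕ} (h : n ≤ m) (o : I) : G K B s f b n o ≤ G K B s f b m o := by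
  induction h with
  | refl => exact le_rfl
  | step _ ih => exact ih.trans (G_le_succ _ _)

theorem GP_le (n : ℕ) (P : Λ × Option Bool) :
    GP K B s f b (G K B s f b n) n P ≤ G K B s f b (n + 1) (B.pobj P) :=
  ((le_iSup (fun Q : {Q // B.pobj Q = B.pobj P} => GP K B s f b (G K B s f b n) n Q.1)
    ⟨P, rfl⟩).trans le_sup_right).trans le_sup_left

theorem Gp_le (n : ℕ) (ρ : Λ) (c : Bool) :
    Gp K B s f b (G K B s f b n) n ρ c ≤ G K B s f b (n + 1) (B.L ρ c) := GP_le n (ρ, some c)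

theorem mem_items {n : ℕ} {q : Option (Λ × Bool)} {o : I} {i : ℕ} (hi : i ∈ s) (h1 : (f i).n = n)
    (h2 : (f i).q = q) (h3 : (f i).o = o) : b i ∈ items K s f b n q o := by
  classical
  exact subset_span ⟨i, by simp [hi, h1, h2, h3], rfl⟩

theorem items_le {n : ℕ} {q : Option (Λ × Bool)} {o : I} {S : Submodule K N}
    (h : ∀ i ∈ s, (f i).n = n → (f i).q = q → (f i).o = o → b i ∈ S) : items K s f b n q o ≤ S := by
  classical
  refine span_le.2 ?_
  rintro _ ⟨i, hi, rfl⟩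
  simp only [coe_filter, Set.mem_setOf_eq] at hi
  exact h i hi.1 hi.2.1 hi.2.2.1 hi.2.2.2

/-- A general principle to bound the formal filtration from above. -/
theorem G_bound (S : ℕ → I → Submodule K N) (T : ℕ → Λ × Option Bool → Submodule K N) (m : ℕ)
    (h1 : ∀ n o, S n o ≤ S (n + 1) o) (h2 : ∀ n P, T n P ≤ S (n + 1) (B.pobj P))
    (h3 : ∀ n ρ c, S n (B.L ρ c) ≤ T n (ρ, some c))
    (h4 : ∀ n ρ c v, v ∈ S n (B.X ρ) → B.pr ρ c • v ∈ T n (ρ, some c))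
    (h5 : ∀ n ρ c v, v ∈ T n (ρ, some c) → B.io ρ c • v ∈ T n (ρ, none))
    (h6 : ∀ i ∈ s, (f i).n < m → (f i).q = none → b i ∈ S ((f i).n + 1) (f i).o)
    (h7 : ∀ i ∈ s, (f i).n < m → ∀ ρ c, (f i).q = some (ρ, c) → (f i).o = B.L ρ c →
      b i ∈ T (f i).n (ρ, some c)) :
    ∀ n, n ≤ m → (∀ o, G K B s f b n o ≤ S n o) ∧
      (n < m → ∀ P, GP K B s f b (G K B s f b n) n P ≤ T n P) := by
  have key : ∀ n, n < m → (∀ o, G K B s f b n o ≤ S n o) →
      ∀ P, GP K B s f b (G K B s f b n) n P ≤ T n P := by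
    intro n hn ih
    have hp : ∀ ρ c, Gp K B s f b (G K B s f b n) n ρ c ≤ T n (ρ, some c) := by
      intro ρ c a ha
      obtain ⟨a1, ha1, u, hu, t, ht, rfl⟩ := mem_Gp.1 ha
      refine add_mem (add_mem (h3 _ _ _ (ih _ ha1)) (h4 _ _ _ _ (ih _ hu))) (items_le ?_ ht)
      rintro i hi rfl e2 e3
      exact h7 i hi hn ρ c e2 e3
    rintro ⟨ρ, _ | c⟩
    · intro a ha
      obtain ⟨y, hy, z, hz, rfl⟩ := mem_GPc.1 ha
      exact add_mem (h5 _ _ _ _ (hp _ _ hy)) (h5 _ _ _ _ (hp _ _ hz))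
    · exact hp ρ c
  intro n
  induction n with
  | zero => exact fun _ => ⟨fun _ => bot_le, fun h => key 0 h (fun _ => bot_le)⟩
  | succ n ih =>
    intro hn
    obtain ⟨i1, i2⟩ := ih (by omega)
    have : ∀ o, G K B s f b (n + 1) o ≤ S (n + 1) o := by
      intro o
      refine sup_le (sup_le ((i1 o).trans (h1 _ _)) (iSup_le ?_)) (items_le ?_)
      · rintro ⟨P, rfl⟩
        exact (i2 (by omega) P).trans (h2 _ _)
      · rintro i hi rfl e2 rfl
        exact h6 i hi (by omega) e2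
    exact ⟨this, fun h => key _ h this⟩

/-- The elements fixed by an idempotent. -/
def Typ (K : Type*) [Field K] [Algebra K A] [Module K N] [IsScalarTower K A N] (e : A) :
    Submodule K N := LinearMap.ker (act K e - LinearMap.id)

theorem mem_Typ {e : A} {v : N} : v ∈ Typ K e ↔ e • v = v := by
  unfold Typ
  rw [LinearMap.mem_ker, LinearMap.sub_apply, sub_eq_zero]
  rfl

theorem G_typ (hb : ∀ i ∈ s, B.ε (f i).o • b i = b i) (n : ℕ) :
    (∀ o, ∀ a ∈ G K B s f b n o, B.ε o • a = a) ∧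
      ∀ P, ∀ a ∈ GP K B s f b (G K B s f b n) n P, B.ε (B.pobj P) • a = a := by
  have := G_bound (B := B) (s := s) (f := f) (b := b) (fun _ o => Typ K (B.ε o))
    (fun _ P => Typ K (B.ε (B.pobj P))) (n + 1) (fun _ _ => le_rfl) (fun _ _ => le_rfl)
    (fun _ _ _ => le_rfl)
    (fun _ ρ c v _ => mem_Typ.2 (by rw [← mul_smul]; exact congrArg (· • v) (B.ε_pr ρ c)))
    (fun _ ρ c v _ => mem_Typ.2 (by rw [← mul_smul]; exact congrArg (· • v) (B.ε_io ρ c)))
    (fun i hi _ _ => mem_Typ.2 (hb i hi))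
    (fun i hi _ ρ c _ h => mem_Typ.2 (by have := hb i hi; rw [h] at this; exact this))
    n (by omega)
  exact ⟨fun o a ha => mem_Typ.1 (this.1 o ha), fun P a ha => mem_Typ.1 (this.2 (by omega) P ha)⟩

theorem pr_G {n : ℕ} {ρ : Λ} (c : Bool) {u : N} (hu : u ∈ G K B s f b n (B.X ρ)) :
    B.pr ρ c • u ∈ Gp K B s f b (G K B s f b n) n ρ c :=
  mem_Gp.2 ⟨0, zero_mem _, u, hu, 0, zero_mem _, by simp⟩

theorem G_le_Gp {n : ℕ} {ρ : Λ} (c : Bool) :
    G K B s f b n (B.L ρ c) ≤ Gp K B s f b (G K B s f b n) n ρ c := le_sup_left.trans le_sup_left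

theorem center_mem {n : ℕ} {ρ : Λ} {u : N} (hu : B.ε (B.X ρ) • u = u)
    (h : ∀ c, B.pr ρ c • u ∈ Gp K B s f b (G K B s f b n) n ρ c) :
    u ∈ GP K B s f b (G K B s f b n) n (ρ, none) :=
  mem_GPc.2 ⟨_, h true, _, h false, by rw [← mul_smul, ← mul_smul, ← add_smul, B.sum, hu]⟩

theorem G_le_GP (hb : ∀ i ∈ s, B.ε (f i).o • b i = b i) (n : ℕ) (P : Λ × Option Bool) :
    G K B s f b n (B.pobj P) ≤ GP K B s f b (G K B s f b n) n P := by
  obtain ⟨ρ, _ | c⟩ := P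
  · exact fun u hu => center_mem ((G_typ hb n).1 _ _ hu) (fun c => pr_G c hu)
  · exact G_le_Gp c

theorem pr_GP (hb : ∀ i ∈ s, B.ε (f i).o • b i = b i) {n : ℕ} {ρ : Λ} (c : Bool) {a : N}
    (ha : a ∈ GP K B s f b (G K B s f b n) n (ρ, none)) :
    B.pr ρ c • a ∈ Gp K B s f b (G K B s f b n) n ρ c := by
  obtain ⟨y, hy, z, hz, rfl⟩ := mem_GPc.1 ha
  have p1 : B.pr ρ true * B.io ρ false = 0 := B.pr_io' ρ true
  have p2 : B.pr ρ false * B.io ρ true = 0 := B.pr_io' ρ false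
  have e1 : B.ε (B.L ρ true) • y = y := (G_typ hb n).2 (ρ, some true) y hy
  have e2 : B.ε (B.L ρ false) • z = z := (G_typ hb n).2 (ρ, some false) z hz
  cases c
  · simpa only [smul_add, ← mul_smul, B.pr_io, p2, e2, zero_smul, zero_add] using hz
  · simpa only [smul_add, ← mul_smul, B.pr_io, p1, e1, zero_smul, add_zero] using hy

theorem io_G {n : ℕ} {ρ : Λ} (c : Bool) {u : N} (hu : u ∈ G K B s f b n (B.L ρ c)) :
    B.io ρ c • u ∈ G K B s f b (n + 1) (B.X ρ) := by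
  refine GP_le n (ρ, none) (mem_GPc.2 ?_)
  cases c
  · exact ⟨0, zero_mem _, u, G_le_Gp _ hu, by simp⟩
  · exact ⟨u, G_le_Gp _ hu, 0, zero_mem _, by simp⟩

/-- The hypotheses which say that the ring is generated by the blocks. -/
structure Gen (K : Type*) [Field K] [Algebra K A] (B : Blocks A I Λ) (U : I) : Prop where
  one : B.ε U = 1
  toU : ∀ o, o = U ∨ ∃ ρ c, B.X ρ = U ∧ B.L ρ c = o ∧ B.io ρ c = B.ε o ∧ B.pr ρ c = B.ε o
  gen : Algebra.adjoin K {r | ∃ ρ c, r = B.io ρ c ∨ r = B.pr ρ c} = ⊤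

theorem Gen.exhaust {U : I} (hU : Gen K B U) (H : I → Submodule K N)
    (hty : ∀ o, ∀ a ∈ H o, B.ε o • a = a)
    (hpr : ∀ ρ c, ∀ a ∈ H (B.X ρ), B.pr ρ c • a ∈ H (B.L ρ c))
    (hio : ∀ ρ c, ∀ a ∈ H (B.L ρ c), B.io ρ c • a ∈ H (B.X ρ)) :
    (∀ o, H o ≤ H U) ∧ (∀ o, ∀ a ∈ H U, B.ε o • a ∈ H o) ∧ ∀ r : A, ∀ a ∈ H U, r • a ∈ H U := by
  have h1 : ∀ o, H o ≤ H U := by
    intro o a ha
    rcases hU.toU o with rfl | ⟨ρ, c, e1, e2, e3, -⟩
    · exact ha
    · have := hio ρ c a (by rwa [e2])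
      rwa [e1, e3, hty o a ha] at this
  have h2 : ∀ o, ∀ a ∈ H U, B.ε o • a ∈ H o := by
    intro o a ha
    rcases hU.toU o with rfl | ⟨ρ, c, e1, e2, -, e4⟩
    · rwa [hU.one, one_smul]
    · have := hpr ρ c a (by rwa [e1])
      rwa [e2, e4] at this
  refine ⟨h1, h2, fun r => ?_⟩
  have hr : r ∈ Algebra.adjoin K {r | ∃ ρ c, r = B.io ρ c ∨ r = B.pr ρ c} := by
    rw [hU.gen]
    trivial
  induction hr using Algebra.adjoin_induction with
  | mem r hr =>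
    intro a ha
    obtain ⟨ρ, c, rfl | rfl⟩ := hr
    · rw [← B.io_ε, mul_smul]
      exact h1 _ (hio _ _ _ (h2 _ _ ha))
    · rw [← B.pr_ε, mul_smul]
      exact h1 _ (hpr _ _ _ (h2 _ _ ha))
  | algebraMap c =>
    intro a ha
    rw [algebraMap_smul]
    exact smul_mem _ _ ha
  | add x y _ _ hx hy =>
    intro a ha
    rw [add_smul]
    exact add_mem (hx a ha) (hy a ha)
  | mul x y _ _ hx hy =>
    intro a ha
    rw [mul_smul]
    exact hx _ (hy a ha)

theorem G_exhaust {U : I} (hU : Gen K B U) (hb : ∀ i ∈ s, B.ε (f i).o • b i = b i)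
    (hq : ∀ i ∈ s, ∀ ρ c, (f i).q = some (ρ, c) → (f i).o = B.L ρ c) (a : ℕ → A) (o : I) :
    ∃ n, B.ε o • ∑ i ∈ s, a i • b i ∈ G K B s f b n o := by
  have hdir : ∀ o, Directed (· ≤ ·) (fun n => G K B s f b n o) :=
    fun o => Monotone.directed_le (fun _ _ h => G_mono h o)
  have hmem : ∀ o v, v ∈ ⨆ n, G K B s f b n o ↔ ∃ n, v ∈ G K B s f b n o :=
    fun o v => mem_iSup_of_directed _ (hdir o)
  obtain ⟨h1, h2, h3⟩ := hU.exhaust (fun o => ⨆ n, G K B s f b n o)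
    (fun o v hv => by
      obtain ⟨n, hn⟩ := (hmem _ _).1 hv
      exact (G_typ hb n).1 _ _ hn)
    (fun ρ c v hv => by
      obtain ⟨n, hn⟩ := (hmem _ _).1 hv
      exact (hmem _ _).2 ⟨n + 1, Gp_le _ _ _ (pr_G c hn)⟩)
    (fun ρ c v hv => by
      obtain ⟨n, hn⟩ := (hmem _ _).1 hv
      exact (hmem _ _).2 ⟨n + 1, io_G c hn⟩)
  refine (hmem _ _).1 (h2 o _ (sum_mem (fun i hi => h3 _ _ (h1 (f i).o ?_))))
  refine (hmem _ _).2 ⟨(f i).n + 1, ?_⟩
  rcases e : (f i).q with _ | ⟨ρ, c⟩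
  · exact (le_sup_right : items K s f b (f i).n none (f i).o ≤ _) (mem_items hi rfl e rfl)
  · rw [hq i hi ρ c e]
    exact Gp_le _ _ _ ((le_sup_right : items K s f b (f i).n (some (ρ, c)) _ ≤ _)
      (mem_items hi rfl e (hq i hi ρ c e)))

end Pool.Agent.H104Z.Berg
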