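import Mathlib

set_option autoImplicit false

/-! The category of conical commutative monoids, the category of (not necessarily unital) rings,
and the nonstable K-theory functor `V`. -/

namespace Pool.Agent.H104Z.Berg

universe u

open CategoryTheory Matrix

section MvN

variable {R : Type u} [NonUnitalRing R] {ι κ μ ν : Type} [Fintype ι] [Fintype κ] [Fintype μ]
  [Fintype ν]

/-- Murray-von Neumann equivalence of square matrices: `e = x y` and `f = y x`. -/
def MvN (e : Matrix ι ι R) (f : Matrix κ κ R) : Prop :=
  ∃ (x : Matrix ι κ R) (y : Matrix κ ι R), e = x * y ∧ f = y * x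

theorem MvN.symm {e : Matrix ι ι R} {f : Matrix κ κ R} (h : MvN e f) : MvN f e := by
  obtain ⟨x, y, h1, h2⟩ := h
  exact ⟨y, x, h2, h1⟩

theorem MvN.trans {e : Matrix ι ι R} {f : Matrix κ κ R} {g : Matrix μ μ R} (he : e * e = e)
    (hg : g * g = g) (h : MvN e f) (h' : MvN f g) : MvN e g := by
  obtain ⟨x, y, h1, h2⟩ := h
  obtain ⟨z, w, h3, h4⟩ := h'
  refine ⟨x * z, w * y, ?_, ?_⟩
  · rw [Matrix.mul_assoc, ← Matrix.mul_assoc z, ← h3, h2, Matrix.mul_assoc, ← Matrix.mul_assoc x,
      ← h1, he]
  · rw [Matrix.mul_assoc, ← Matrix.mul_assoc y, ← h2, h3, Matrix.mul_assoc, ← Matrix.mul_assoc w,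
      ← h4, hg]

theorem MvN.of_equiv (σ : ι ≃ κ) {e : Matrix ι ι R} {f : Matrix κ κ R} (he : e * e = e)
    (h : ∀ i j, f (σ i) (σ j) = e i j) : MvN e f := by
  refine ⟨e.submatrix id σ.symm, e.submatrix σ.symm id, ?_, ?_⟩
  · rw [submatrix_mul_equiv, he]
    rfl
  · have : e.submatrix σ.symm id * e.submatrix id σ.symm = (e * e).submatrix σ.symm σ.symm := rfl
    rw [this, he]
    ext i j
    rw [submatrix_apply, ← h]
    simp

theorem MvN.blocks {e : Matrix ι ι R} {f : Matrix κ κ R} {e' : Matrix μ μ R} {f' : Matrix ν ν R}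
    (h : MvN e f) (h' : MvN e' f') : MvN (fromBlocks e 0 0 e') (fromBlocks f 0 0 f') := by
  obtain ⟨x, y, h1, h2⟩ := h
  obtain ⟨z, w, h3, h4⟩ := h'
  refine ⟨fromBlocks x 0 0 z, fromBlocks y 0 0 w, ?_, ?_⟩
  · rw [fromBlocks_multiply, h1, h3]
    simp
  · rw [fromBlocks_multiply, h2, h4]
    simp

theorem idem_blocks {e : Matrix ι ι R} {f : Matrix κ κ R} (he : e * e = e) (hf : f * f = f) :
    fromBlocks e 0 0 f * fromBlocks e 0 0 f = fromBlocks e 0 0 f := by
  rw [fromBlocks_multiply, he, hf]
  simp

end MvN

/-- An idempotent square matrix over `R`, of any finite size. -/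
structure Idem (R : Type u) [NonUnitalRing R] where
  /-- the size -/
  n : ℕ
  /-- the matrix -/
  e : Matrix (Fin n) (Fin n) R
  idem : e * e = e

namespace Idem

variable {R : Type u} [NonUnitalRing R]

instance setoid (R : Type u) [NonUnitalRing R] : Setoid (Idem R) where
  r a b := MvN a.e b.e
  iseqv := ⟨fun a => ⟨a.e, a.e, a.idem.symm, a.idem.symm⟩, MvN.symm,
    fun {a _ c} => MvN.trans a.idem c.idem⟩

/-- The block diagonal sum of two idempotent matrices. -/
def add (a b : Idem R) : Idem R where
  n := a.n + b.n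
  e := reindex finSumFinEquiv finSumFinEquiv (fromBlocks a.e 0 0 b.e)
  idem := by
    rw [reindex_apply, submatrix_mul_equiv, idem_blocks a.idem b.idem]

/-- The empty matrix (it is equivalent to every zero matrix). -/
def zero : Idem R := ⟨0, 0, by simp⟩

theorem add_mvn (a b : Idem R) : MvN (fromBlocks a.e 0 0 b.e) (add a b).e :=
  MvN.of_equiv finSumFinEquiv (idem_blocks a.idem b.idem) (fun i j => by simp [add])

theorem add_congr {a a' b b' : Idem R} (h : a ≈ a') (h' : b ≈ b') : add a b ≈ add a' b' :=
  MvN.trans (add a b).idem (add a' b').idem (add_mvn a b).symm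
    (MvN.trans (idem_blocks a.idem b.idem) (add a' b').idem (MvN.blocks h h') (add_mvn a' b'))

theorem add_comm' (a b : Idem R) : add a b ≈ add b a :=
  MvN.trans (add a b).idem (add b a).idem (add_mvn a b).symm
    (MvN.trans (idem_blocks a.idem b.idem) (add b a).idem
      (MvN.of_equiv (Equiv.sumComm _ _) (f := fromBlocks b.e 0 0 a.e) (idem_blocks a.idem b.idem)
        (by rintro (i | i) (j | j) <;> rfl)) (add_mvn b a))

theorem add_zero' (a : Idem R) : add a zero ≈ a :=
  MvN.trans (add a zero).idem a.idem (add_mvn a zero).symm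
    (MvN.of_equiv (Equiv.sumEmpty _ (Fin 0)) (idem_blocks a.idem zero.idem)
      (by
        rintro (i | i) (j | j)
        · rfl
        · exact j.elim0
        · exact i.elim0
        · exact i.elim0))

theorem add_assoc' (a b c : Idem R) : add (add a b) c ≈ add a (add b c) := by
  have hab := idem_blocks a.idem b.idem
  have hbc := idem_blocks b.idem c.idem
  have h1 : MvN (add (add a b) c).e (fromBlocks (fromBlocks a.e 0 0 b.e) 0 0 c.e) :=
    MvN.trans (add (add a b) c).idem (idem_blocks hab c.idem) (add_mvn (add a b) c).symm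
      (MvN.blocks (add_mvn a b).symm (setoid R |>.iseqv.refl c))
  have h2 : MvN (fromBlocks a.e 0 0 (fromBlocks b.e 0 0 c.e)) (add a (add b c)).e :=
    MvN.trans (idem_blocks a.idem hbc) (add a (add b c)).idem
      (MvN.blocks (setoid R |>.iseqv.refl a) (add_mvn b c)) (add_mvn a (add b c))
  refine MvN.trans (add (add a b) c).idem (add a (add b c)).idem h1
    (MvN.trans (idem_blocks hab c.idem) (add a (add b c)).idem
      (MvN.of_equiv (Equiv.sumAssoc _ _ _) (idem_blocks hab c.idem) ?_) h2)
  rintro ((i | i) | i) ((j | j) | j) <;> rfl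

/-- The entrywise image of an idempotent matrix under a ring homomorphism. -/
def map {S : Type u} [NonUnitalRing S] (φ : R →ₙ+* S) (a : Idem R) : Idem S where
  n := a.n
  e := a.e.map φ
  idem := by rw [← Matrix.map_mul, a.idem]

theorem map_congr {S : Type u} [NonUnitalRing S] (φ : R →ₙ+* S) {a b : Idem R} (h : a ≈ b) :
    map φ a ≈ map φ b := by
  obtain ⟨x, y, h1, h2⟩ := h
  have h3 : a.e.map φ = x.map φ * y.map φ := by rw [← Matrix.map_mul, ← h1]
  have h4 : b.e.map φ = y.map φ * x.map φ := by rw [← Matrix.map_mul, ← h2]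
  exact ⟨x.map φ, y.map φ, h3, h4⟩

theorem map_add' {S : Type u} [NonUnitalRing S] (φ : R →ₙ+* S) (a b : Idem R) :
    map φ (add a b) = add (map φ a) (map φ b) := by
  unfold map add
  congr 1
  ext i j
  simp only [reindex_apply, map_apply, submatrix_apply]
  rcases finSumFinEquiv.symm i with i | i <;> rcases finSumFinEquiv.symm j with j | j <;> simp

end Idem

/-- Nonstable K-theory: equivalence classes of idempotent matrices over `R`. -/
def V (R : Type u) [NonUnitalRing R] : Type u := Quotient (Idem.setoid R)

namespace V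

variable {R : Type u} [NonUnitalRing R]

/-- The class of an idempotent matrix. -/
def mk (a : Idem R) : V R := Quotient.mk _ a

instance : Add (V R) := ⟨Quotient.map₂ Idem.add (fun _ _ h _ _ h' => Idem.add_congr h h')⟩

instance : Zero (V R) := ⟨mk Idem.zero⟩

instance : AddCommMonoid (V R) where
  add_assoc := by
    rintro ⟨a⟩ ⟨b⟩ ⟨c⟩
    exact Quotient.sound (Idem.add_assoc' a b c)
  add_comm := by
    rintro ⟨a⟩ ⟨b⟩
    exact Quotient.sound (Idem.add_comm' a b)
  add_zero := by
    rintro ⟨a⟩
    exact Quotient.sound (Idem.add_zero' a)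
  zero_add := by
    rintro ⟨a⟩
    exact Quotient.sound (Setoid.trans (Idem.add_comm' _ a) (Idem.add_zero' a))
  nsmul := nsmulRec

theorem conical (a b : V R) (h : a + b = 0) : a = 0 ∧ b = 0 := by
  have key : ∀ a b : V R, a + b = 0 → a = 0 := by
    rintro ⟨a⟩ ⟨b⟩ h
    have h1 : MvN (Idem.add a b).e (Idem.zero (R := R)).e := Quotient.exact h
    obtain ⟨x, y, h2, -⟩ := MvN.trans (idem_blocks a.idem b.idem) Idem.zero.idem
      (Idem.add_mvn a b) h1
    refine Quotient.sound ⟨0, 0, ?_, ?_⟩
    · ext i j
      have h3 := congrFun (congrFun h2 (Sum.inl i)) (Sum.inl j)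
      have h4 : (x * y) (Sum.inl i) (Sum.inl j) = 0 := by
        rw [Matrix.mul_apply]
        exact Finset.sum_eq_zero (fun k _ => k.elim0)
      rw [h4] at h3
      rw [Matrix.zero_mul]
      exact h3
    · ext i
      exact i.elim0
  exact ⟨key a b h, key b a (by rw [add_comm]; exact h)⟩

/-- The monoid homomorphism induced by a ring homomorphism. -/
def map {S : Type u} [NonUnitalRing S] (φ : R →ₙ+* S) : V R →+ V S where
  toFun := Quotient.map (Idem.map φ) (fun _ _ h => Idem.map_congr φ h)
  map_zero' := Quotient.sound ⟨0, 0, by ext i; exact i.elim0, by ext i; exact i.elim0⟩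
  map_add' := by
    rintro ⟨a⟩ ⟨b⟩
    exact congrArg mk (Idem.map_add' φ a b)

end V

/-- The category of associative rings, not necessarily unital. -/
structure Rng : Type (u + 1) where
  /-- the underlying type -/
  carrier : Type u
  [str : NonUnitalRing carrier]

attribute [instance] Rng.str

/-- Morphisms are the ring homomorphisms (maps preserving sums and products). -/
instance : Category Rng.{u} where
  Hom R S := R.carrier →ₙ+* S.carrier
  id R := NonUnitalRingHom.id R.carrier
  comp f g := NonUnitalRingHom.comp g f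

/-- The category of conical commutative monoids. -/
structure ConMon : Type (u + 1) where
  /-- the underlying type -/
  carrier : Type u
  [str : AddCommMonoid carrier]
  conical : ∀ x y : carrier, x + y = 0 → x = 0 ∧ y = 0

attribute [instance] ConMon.str

/-- Morphisms are all monoid homomorphisms (maps preserving sums and zero). -/
instance : Category ConMon.{u} where
  Hom M N := M.carrier →+ N.carrier
  id M := AddMonoidHom.id M.carrier
  comp f g := AddMonoidHom.comp g f

/-- The nonstable K-theory functor from rings to conical commutative monoids. -/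
def VFun : Rng.{u} ⥤ ConMon.{u} where
  obj R := { carrier := V R.carrier, conical := V.conical }
  map φ := V.map φ
  map_id R := by
    apply AddMonoidHom.ext
    rintro ⟨a⟩
    rfl
  map_comp φ ψ := by
    apply AddMonoidHom.ext
    rintro ⟨a⟩
    rfl

end Pool.Agent.H104Z.Berg
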