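import Pool.Agent.H104Z.Berg.Core

set_option autoImplicit false
set_option linter.unusedSectionVars false

/-! The main induction: an irreducible family is independent and tight. -/

namespace Pool.Agent.H104Z.Berg

open Finset Submodule

variable {K A I Λ F C N : Type*} [Field K] [Ring A] [Algebra K A]
  [AddCommGroup N] [Module A N] [Module K N] [IsScalarTower K A N]
  [AddCommGroup F] [Module A F] [Module K F] [IsScalarTower K A F] [AddCommMonoid C]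
  {B : Blocks A I Λ} {Φ : Filt K B F} {κ : I → C} {s : Finset ℕ} {f : ℕ → Item I Λ F} {b : ℕ → N}
  {ψ : N →ₗ[A] F}

theorem G_Fl (hg : Φ.Good s f) (hψ : ∀ i ∈ s, ψ (b i) = (f i).x) (n : ℕ) :
    (∀ o, ∀ a ∈ G K B s f b n o, ψ a ∈ Φ.Fl n o) ∧
      ∀ P, ∀ a ∈ GP K B s f b (G K B s f b n) n P, ψ a ∈ Φ.FP n P := by
  have := G_bound (B := B) (s := s) (f := f) (b := b)
    (fun n o => (Φ.Fl n o).comap (ψ.restrictScalars K))
    (fun n P => (Φ.FP n P).comap (ψ.restrictScalars K)) (n + 1)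
    (fun _ _ => comap_mono (Φ.mono _ _)) (fun _ _ => comap_mono (Φ.le2 _ _))
    (fun n ρ c => comap_mono (Φ.le1 n (ρ, some c)))
    (fun n ρ c v hv => by
      change ψ _ ∈ Φ.FP _ _
      rw [map_smul]
      exact Φ.pr_FP _ _ _ _ (Φ.le1 n (ρ, none) hv))
    (fun n ρ c v hv => by
      change ψ _ ∈ Φ.FP _ _
      rw [map_smul]
      exact Φ.io_FP _ _ _ _ hv)
    (fun i hi _ hq => by
      change ψ _ ∈ Φ.Fl _ _
      rw [hψ i hi]
      exact (hg i hi).1 hq)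
    (fun i hi _ ρ c hq _ => by
      change ψ _ ∈ Φ.FP _ _
      rw [hψ i hi]
      exact ((hg i hi).2 ρ c hq).2)
    n (by omega)
  exact ⟨fun o a ha => this.1 o ha, fun P a ha => this.2 (by omega) P ha⟩

theorem G_low (hψ : ∀ i ∈ s, ψ (b i) = (f i).x) (S : Submodule A F) (n : ℕ)
    (hS : ∀ i ∈ s, (f i).n < n → (f i).x ∈ S) (o : I) {a : N} (ha : a ∈ G K B s f b n o) :
    ψ a ∈ S :=
  (G_bound (B := B) (s := s) (f := f) (b := b)
    (fun _ _ => (S.comap ψ).restrictScalars K) (fun _ _ => (S.comap ψ).restrictScalars K) n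
    (fun _ _ => le_rfl) (fun _ _ => le_rfl) (fun _ _ _ => le_rfl)
    (fun _ _ _ _ hv => (S.comap ψ).smul_mem _ hv) (fun _ _ _ _ hv => (S.comap ψ).smul_mem _ hv)
    (fun i hi h _ => by
      change ψ _ ∈ S
      rw [hψ i hi]
      exact hS i hi h)
    (fun i hi h _ _ _ _ => by
      change ψ _ ∈ S
      rw [hψ i hi]
      exact hS i hi h)
    n le_rfl).1 o ha

theorem items_low (hψ : ∀ i ∈ s, ψ (b i) = (f i).x) (S : Submodule A F) {n : ℕ}
    {q : Option (Λ × Bool)} {o : I} (hS : ∀ i ∈ s, (f i).n = n → (f i).q = q → (f i).x ∈ S)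
    {a : N} (ha : a ∈ items K s f b n q o) : ψ a ∈ S :=
  items_le (S := (S.comap ψ).restrictScalars K) (fun i hi e1 e2 _ => by
    change ψ _ ∈ S
    rw [hψ i hi]
    exact hS i hi e1 e2) ha

theorem GP_low (hψ : ∀ i ∈ s, ψ (b i) = (f i).x) (S : Submodule A F) (n : ℕ)
    (hS : ∀ i ∈ s, (f i).n < n ∨ ((f i).n = n ∧ (f i).q ≠ none) → (f i).x ∈ S)
    (P : Λ × Option Bool) {a : N} (ha : a ∈ GP K B s f b (G K B s f b n) n P) : ψ a ∈ S := by
  have hG := G_low (K := K) (B := B) hψ S n (fun i hi h => hS i hi (Or.inl h))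
  have hp : ∀ ρ c, ∀ a ∈ Gp K B s f b (G K B s f b n) n ρ c, ψ a ∈ S := by
    intro ρ c a ha
    obtain ⟨a1, h1, u, hu, t, ht, rfl⟩ := mem_Gp.1 ha
    rw [map_add, map_add, map_smul]
    exact add_mem (add_mem (hG _ h1) (smul_mem _ _ (hG _ hu)))
      (items_low hψ S (fun i hi e1 e2 => hS i hi (Or.inr ⟨e1, by simp [e2]⟩)) ht)
  obtain ⟨ρ, _ | c⟩ := P
  · obtain ⟨y, hy, z, hz, rfl⟩ := mem_GPc.1 ha
    rw [map_add, map_smul, map_smul]
    exact add_mem (smul_mem _ _ (hp _ _ _ hy)) (smul_mem _ _ (hp _ _ _ hz))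
  · exact hp ρ c a ha

theorem items_cases (hψ : ∀ i ∈ s, ψ (b i) = (f i).x) {n : ℕ} {q : Option (Λ × Bool)} {o : I}
    {t : N} (ht : t ∈ items K s f b n q o) : t = 0 ∨ ∃ i ∈ s, (f i).n = n ∧ (f i).q = q ∧
      (f i).o = o ∧ ∃ c : K, c ≠ 0 ∧ ∀ S : Submodule A F,
        (∀ l ∈ s, l ≠ i → (f l).n = n → (f l).q = q → (f l).x ∈ S) → ψ t - c • (f i).x ∈ S := by
  classical
  obtain ⟨c, rfl⟩ := (mem_span_image_finset_iff_exists_fun' K).1 ht
  by_cases h : ∀ i ∈ s.filter (fun i => (f i).n = n ∧ (f i).q = q ∧ (f i).o = o), c i = 0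
  · left
    refine sum_eq_zero (fun i hi => ?_)
    rw [h i (by convert hi), zero_smul]
  · right
    push Not at h
    obtain ⟨i, hi, hc⟩ := h
    obtain ⟨h0, h1, h2, h3⟩ := mem_filter.1 hi
    refine ⟨i, h0, h1, h2, h3, c i, hc, fun S hS => ?_⟩
    rw [← add_sum_erase _ _ (a := i) (by convert hi), map_add, LinearMap.map_smul_of_tower, hψ i h0,
      add_sub_cancel_left, map_sum]
    refine sum_mem (fun l hl => ?_)
    obtain ⟨h4, h5⟩ := mem_erase.1 hl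
    obtain ⟨h6, h7, h8, -⟩ := mem_filter.1 h5
    rw [LinearMap.map_smul_of_tower, hψ l h6, ← algebraMap_smul A]
    exact smul_mem _ _ (hS l h6 h4 h7 h8)

theorem Gp_cases (hψ : ∀ i ∈ s, ψ (b i) = (f i).x) {n : ℕ} {ρ : Λ} {c : Bool} {a : N}
    (ha : a ∈ Gp K B s f b (G K B s f b n) n ρ c) :
    (∃ a1 ∈ G K B s f b n (B.L ρ c), ∃ u ∈ G K B s f b n (B.X ρ), a = a1 + B.pr ρ c • u) ∨
      ∃ i ∈ s, (f i).n = n ∧ (f i).q = some (ρ, c) ∧ (f i).o = B.L ρ c ∧ ∃ d : K, d ≠ 0 ∧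
        ∀ S : Submodule A F, (∀ l ∈ s, l ≠ i →
          (f l).n < n ∨ ((f l).n = n ∧ (f l).q = some (ρ, c)) → (f l).x ∈ S) →
            ψ a - d • (f i).x ∈ S := by
  obtain ⟨a1, h1, u, hu, t, ht, rfl⟩ := mem_Gp.1 ha
  rcases items_cases hψ ht with rfl | ⟨i, hi, e1, e2, e3, d, hd, h⟩
  · exact Or.inl ⟨a1, h1, u, hu, by simp⟩
  · refine Or.inr ⟨i, hi, e1, e2, e3, d, hd, fun S hS => ?_⟩
    have hG := G_low (K := K) (B := B) hψ S n
      (fun l hl h => hS l hl (by rintro rfl; omega) (Or.inl h))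
    rw [map_add, map_add, map_smul, add_sub_assoc]
    exact add_mem (add_mem (hG _ h1) (smul_mem _ _ (hG _ hu)))
      (h S (fun l hl h1 h2 h3 => hS l hl h1 (Or.inr ⟨h2, h3⟩)))

/-- The standing hypotheses: a well placed irreducible family, lifted to a module `N`. -/
structure Irr (Φ : Filt K B F) (κ : I → C) (s : Finset ℕ) (f : ℕ → Item I Λ F) (b : ℕ → N)
    (ψ : N →ₗ[A] F) : Prop where
  hne : ∀ o, B.ε o ≠ 0
  hκ : ∀ ρ, κ (B.X ρ) = κ (B.L ρ true) + κ (B.L ρ false)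
  hg : Φ.Good s f
  hb : ∀ i ∈ s, B.ε (f i).o • b i = b i
  hψ : ∀ i ∈ s, ψ (b i) = (f i).x
  irr : ¬ Φ.Red κ s f

/-- Tightness from objects to ports. -/
def Al (Φ : Filt K B F) (s : Finset ℕ) (f : ℕ → Item I Λ F) (b : ℕ → N) (ψ : N →ₗ[A] F)
    (n : ℕ) : Prop := ∀ P, ∀ a ∈ G K B s f b (n + 1) (B.pobj P), ψ a ∈ Φ.FP n P →
      a ∈ GP K B s f b (G K B s f b n) n P

/-- Tightness from ports to objects. -/
def Be (Φ : Filt K B F) (s : Finset ℕ) (f : ℕ → Item I Λ F) (b : ℕ → N) (ψ : N →ₗ[A] F)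
    (n : ℕ) : Prop := ∀ P, ∀ a ∈ GP K B s f b (G K B s f b n) n P, ψ a ∈ Φ.Fl n (B.pobj P) →
      a ∈ G K B s f b n (B.pobj P)

theorem Irr.be_zero (h : Irr Φ κ s f b ψ) : Be Φ s f b ψ 0 := by
  have hp : ∀ ρ c, ∀ a ∈ Gp K B s f b (G K B s f b 0) 0 ρ c, a = 0 := by
    intro ρ c a ha
    rcases Gp_cases h.hψ ha with ⟨a1, h1, u, hu, rfl⟩ | ⟨i, hi, e1, e2, e3, d, hd, -⟩
    · rw [(Submodule.mem_bot K).1 h1, (Submodule.mem_bot K).1 hu, smul_zero, add_zero]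
    · refine absurd (red_zero h.hne h.hg hi ?_) h.irr
      have := ((h.hg i hi).2 ρ c e2).2
      rw [e1, Φ.zeroP, Submodule.mem_bot] at this
      rw [this]
      exact zero_mem _
  rintro ⟨ρ, _ | c⟩ a ha -
  · obtain ⟨y, hy, z, hz, rfl⟩ := mem_GPc.1 ha
    rw [hp _ _ _ hy, hp _ _ _ hz, smul_zero, smul_zero, add_zero]
    exact zero_mem _
  · rw [hp _ _ _ ha]
    exact zero_mem _

theorem Irr.be_leaf (h : Irr Φ κ s f b ψ) {m : ℕ} (al : Al Φ s f b ψ m) {ρ : Λ} {c : Bool} {a : N}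
    (ha : a ∈ Gp K B s f b (G K B s f b (m + 1)) (m + 1) ρ c) (hF : ψ a ∈ Φ.Fl (m + 1) (B.L ρ c)) :
    a ∈ G K B s f b (m + 1) (B.L ρ c) := by
  rcases Gp_cases h.hψ ha with ⟨a1, h1, u, hu, rfl⟩ | ⟨i, hi, e1, e2, e3, d, hd, hS⟩
  · refine add_mem h1 (Gp_le _ _ _ (pr_GP h.hb c (al (ρ, none) u hu ?_)))
    refine Φ.f3 m ρ c _ ((G_Fl h.hg h.hψ _).1 _ _ hu) ?_
    have := sub_mem hF ((G_Fl h.hg h.hψ _).1 _ _ h1)
    rwa [map_add, add_sub_cancel_left, map_smul] at this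
  · refine absurd (red_Fl h.hne h.hg hi hd
      (hS _ (fun l hl hne _ => mem_spn (mem_erase.2 ⟨hne, hl⟩))) ?_) h.irr
    rwa [e1, e3]

theorem Irr.be_succ (h : Irr Φ κ s f b ψ) {m : ℕ} (al : Al Φ s f b ψ m) :
    Be Φ s f b ψ (m + 1) := by
  rintro ⟨ρ, _ | c⟩ a ha hF
  swap
  · exact h.be_leaf al ha hF
  have key : ∀ c, (∃ a1 ∈ G K B s f b (m + 1) (B.L ρ c), ∃ u ∈ G K B s f b (m + 1) (B.X ρ),
      B.pr ρ c • a = a1 + B.pr ρ c • u) → a ∈ G K B s f b (m + 1) (B.X ρ) := by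
    rintro c ⟨a1, h1, u, hu, e⟩
    have hu' : u ∈ GP K B s f b (G K B s f b (m + 1)) (m + 1) (ρ, none) :=
      G_le_GP h.hb _ (ρ, none) hu
    have ha' := sub_mem ha hu'
    have h2 : ψ (a - u) ∈ Φ.FP m (ρ, none) := by
      refine Φ.f3 m ρ c _ ?_ ?_
      · rw [map_sub]
        exact sub_mem hF ((G_Fl h.hg h.hψ _).1 _ _ hu)
      · rw [← map_smul, smul_sub, e, add_sub_cancel_right]
        exact (G_Fl h.hg h.hψ _).1 _ _ h1
    have h3 : a - u ∈ GP K B s f b (G K B s f b m) m (ρ, none) := by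
      refine center_mem ((G_typ h.hb _).2 _ _ ha') (fun c' => ?_)
      have h4 : ψ (B.pr ρ c' • (a - u)) ∈ Φ.FP m (ρ, some c') := by
        rw [map_smul]
        exact Φ.pr_FP _ _ _ _ h2
      exact al (ρ, some c') _ (h.be_leaf al (pr_GP h.hb c' ha') (Φ.le2 _ _ h4)) h4
    have := add_mem (GP_le m (ρ, none) h3) hu
    rwa [sub_add_cancel] at this
  rcases Gp_cases h.hψ (pr_GP h.hb true ha) with h1 | ⟨i, hi, e1, e2, e3, c, hc, hS⟩
  · exact key true h1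
  rcases Gp_cases h.hψ (pr_GP h.hb false ha) with h1 | ⟨j, hj, d1, d2, d3, d, hd, hT⟩
  · exact key false h1
  refine absurd (red_join h.hκ h.hg hi hj e1 d1 e2 d2 hc hd (hS _ ?_) (hT _ ?_)
    ((G_Fl h.hg h.hψ _).2 (ρ, some true) _ (pr_GP h.hb true ha))
    ((G_Fl h.hg h.hψ _).2 (ρ, some false) _ (pr_GP h.hb false ha)) ?_) h.irr
  · intro l hl hne hl'
    refine mem_spn (mem_erase.2 ⟨hne, mem_erase.2 ⟨?_, hl⟩⟩)
    rintro rfl
    rcases hl' with hl' | ⟨-, hl'⟩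
    · omega
    · rw [d2] at hl'
      simp at hl'
  · intro l hl hne hl'
    refine mem_spn (mem_erase.2 ⟨?_, mem_erase.2 ⟨hne, hl⟩⟩)
    rintro rfl
    rcases hl' with hl' | ⟨-, hl'⟩
    · omega
    · rw [e2] at hl'
      simp at hl'
  · rw [← map_smul, ← map_smul, ← map_add, ← mul_smul, ← mul_smul, ← add_smul, B.sum]
    have : B.ε (B.X ρ) • a = a := (G_typ h.hb _).2 _ _ ha
    rw [this]
    exact hF

theorem Irr.top (h : Irr Φ κ s f b ψ) {n : ℕ} (be : Be Φ s f b ψ n) {o : I} {a : N}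
    (ha : a ∈ G K B s f b (n + 1) o)
    (hred : ∀ i ∈ s, (f i).n = n → (f i).q = none → (f i).o = o → ∀ c : K, c ≠ 0 →
      ψ a - c • (f i).x ∈ spn A (s.erase i) f → Φ.Red κ s f)
    (S : Submodule K N) (hS : G K B s f b n o ≤ S)
    (hP : ∀ P, B.pobj P = o → ψ a ∈ Φ.Oth n P ∨ GP K B s f b (G K B s f b n) n P ≤ S) :
    a ∈ S := by
  classical
  obtain ⟨a0, h0, g, hg, t, ht, rfl⟩ := mem_G_succ.1 ha
  rcases items_cases h.hψ ht with rfl | ⟨i, hi, e1, e2, e3, c, hc, hT⟩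
  · refine add_mem (add_mem (hS h0) (sum_mem (fun P hP' => ?_))) (zero_mem _)
    obtain ⟨P, rfl⟩ := P
    rcases hP P rfl with h1 | h1
    · refine hS (be P _ (hg ⟨P, rfl⟩) (Φ.oth3 _ _ _ ((G_Fl h.hg h.hψ _).2 _ _ (hg ⟨P, rfl⟩)) ?_))
      rw [add_zero, ← add_sum_erase _ _ hP', map_add, map_add] at h1
      have h2 : ψ a0 ∈ Φ.Oth n P := Φ.oth1 _ _ ((G_Fl h.hg h.hψ _).1 _ _ h0)
      have h3 : ψ (∑ Q ∈ g.support.erase ⟨P, rfl⟩, g Q) ∈ Φ.Oth n P := by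
        rw [map_sum]
        refine sum_mem (fun Q hQ => Φ.oth2 n P Q.1 ?_ Q.2 ((G_Fl h.hg h.hψ _).2 _ _ (hg _)))
        exact fun e => ne_of_mem_erase hQ (Subtype.ext e)
      have := sub_mem (sub_mem h1 h2) h3
      rwa [add_sub_cancel_left, add_sub_cancel_right] at this
    · exact h1 (hg ⟨P, rfl⟩)
  · refine absurd (hred i hi e1 e2 e3 c hc ?_) h.irr
    rw [map_add, map_add, map_sum, add_sub_assoc]
    refine add_mem (add_mem (G_low h.hψ _ n (fun l hl hl' => ?_) _ h0) (sum_mem (fun P _ =>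
      GP_low h.hψ _ n (fun l hl hl' => ?_) _ (hg P))))
      (hT _ (fun l hl hne _ _ => mem_spn (mem_erase.2 ⟨hne, hl⟩)))
    · exact mem_spn (mem_erase.2 ⟨by rintro rfl; omega, hl⟩)
    · refine mem_spn (mem_erase.2 ⟨?_, hl⟩)
      rintro rfl
      rcases hl' with hl' | hl'
      · omega
      · exact hl'.2 e2

theorem Irr.al_of_be (h : Irr Φ κ s f b ψ) {n : ℕ} (be : Be Φ s f b ψ n) : Al Φ s f b ψ n := by
  intro P a ha hF
  refine h.top be ha (fun i hi e1 e2 e3 c hc hy => red_FP h.hκ h.hg hi hc hy e2 e3 (by rwa [e1]))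
    _ (G_le_GP h.hb n P) (fun Q hQ => ?_)
  by_cases e : P = Q
  · exact Or.inr (by rw [e])
  · exact Or.inl (Φ.oth2 n Q P e hQ.symm hF)

theorem Irr.be (h : Irr Φ κ s f b ψ) (n : ℕ) : Be Φ s f b ψ n := by
  induction n with
  | zero => exact h.be_zero
  | succ n ih => exact h.be_succ (h.al_of_be ih)

theorem Filt.Fl_mono (Φ : Filt K B F) {n m : ℕ} (h : n ≤ m) (o : I) : Φ.Fl n o ≤ Φ.Fl m o := by
  induction h with
  | refl => exact le_rfl
  | step _ ih => exact ih.trans (Φ.mono _ _)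

theorem Irr.tight (h : Irr Φ κ s f b ψ) {m n : ℕ} {o : I} {a : N} (ha : a ∈ G K B s f b n o)
    (hF : ψ a ∈ Φ.Fl m o) : a ∈ G K B s f b m o := by
  induction n with
  | zero => exact G_mono (Nat.zero_le _) _ ha
  | succ n ih =>
    by_cases hm : n + 1 ≤ m
    · exact G_mono hm _ ha
    · have hF' := Φ.Fl_mono (show m ≤ n by omega) o hF
      refine ih (h.top (h.be n) ha (fun i hi e1 _ e3 c hc hy =>
        red_Fl h.hne h.hg hi hc hy (by rwa [e1, e3])) _ le_rfl (fun P hP => Or.inl ?_))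
      exact Φ.oth1 _ _ (by rwa [hP])

/-- The structure theorem for finitely generated submodules. -/
theorem core {U : I} (hU : Gen K B U) (hne : ∀ o, B.ε o ≠ 0)
    (hκ : ∀ ρ, κ (B.X ρ) = κ (B.L ρ true) + κ (B.L ρ false)) (s : Finset ℕ) (f : ℕ → Item I Λ F)
    (hg : Φ.Good s f) : ∃ s' f', Φ.Good s' f' ∧ Rel B κ s f s' f' ∧ ind B s' f' ∧
      ∀ o, ∀ v ∈ spn A s' f', v ∈ Φ.Fl 1 o → v ≠ 0 →
        ∃ i ∈ s', (f' i).o = o ∧ (f' i).x ∈ Φ.Fl 1 o := by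
  classical
  induction hm : mu s f using Nat.strong_induction_on generalizing s f with
  | _ m ih =>
  by_cases hr : Φ.Red κ s f
  · obtain ⟨s1, f1, h1, h2, h3⟩ := hr
    obtain ⟨s2, f2, h4, h5, h6⟩ := ih _ (hm ▸ h2) s1 f1 h1 rfl
    exact ⟨s2, f2, h4, h3.trans h5, h6⟩
  let b : ℕ → ℕ → A := fun i => Pi.single i (B.ε (f i).o)
  let ψ : (ℕ → A) →ₗ[A] F :=
    { toFun := fun a => ∑ i ∈ s, a i • (f i).x
      map_add' := fun a a' => by simp [add_smul, sum_add_distrib]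
      map_smul' := fun r a => by simp [smul_sum, mul_smul] }
  have hψ : ∀ i ∈ s, ψ (b i) = (f i).x := by
    intro i hi
    change ∑ l ∈ s, b i l • (f l).x = _
    rw [sum_eq_single i (fun l _ hl => by simp [b, Pi.single_eq_of_ne hl]) (fun h => absurd hi h)]
    simp only [b, Pi.single_eq_same]
    exact (hg i hi).typ
  have hb : ∀ i ∈ s, B.ε (f i).o • b i = b i := by
    intro i _
    funext l
    by_cases hl : l = i
    · simp [b, hl, B.ε_idem]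
    · simp [b, Pi.single_eq_of_ne hl]
  have h : Irr Φ κ s f b ψ := ⟨hne, hκ, hg, hb, hψ, hr⟩
  have hq : ∀ i ∈ s, ∀ ρ c, (f i).q = some (ρ, c) → (f i).o = B.L ρ c :=
    fun i hi ρ c e => ((hg i hi).2 ρ c e).1
  have hsum : ∀ a : ℕ → A, ψ (∑ i ∈ s, a i • b i) = ∑ i ∈ s, a i • (f i).x := by
    intro a
    rw [map_sum]
    exact sum_congr rfl (fun i hi => by rw [map_smul, hψ i hi])
  refine ⟨s, f, hg, Rel.refl, fun a ha i hi => ?_, fun o v hv hF hv0 => ?_⟩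
  · obtain ⟨n, hn⟩ := G_exhaust (K := K) hU hb hq a U
    rw [hU.one, one_smul] at hn
    have h0 : ∑ i ∈ s, a i • b i = 0 :=
      (Submodule.mem_bot K).1 (h.tight (m := 0) hn (by rw [hsum, ha]; exact zero_mem _))
    have h1 := congrFun h0 i
    rw [Finset.sum_apply, sum_eq_single i (fun l _ hl => by simp [b, Pi.single_eq_of_ne hl.symm])
      (fun h => absurd hi h)] at h1
    simpa [b] using h1
  · obtain ⟨a, rfl⟩ := (mem_span_image_finset_iff_exists_fun' A).1 hv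
    obtain ⟨n, hn⟩ := G_exhaust (K := K) hU hb hq a o
    have e : ψ (B.ε o • ∑ i ∈ s, a i • b i) = ∑ i ∈ s, a i • (f i).x := by
      rw [map_smul, hsum, Φ.typ _ _ _ hF]
    obtain ⟨a0, h0, g, hg', t, ht, e'⟩ := mem_G_succ.1 (h.tight (m := 1) hn (by rwa [e]))
    rcases items_cases hψ ht with rfl | ⟨i, hi, e1, e2, e3, -⟩
    · refine absurd ?_ hv0
      rw [← e, e', (Submodule.mem_bot K).1 h0, zero_add, add_zero, map_sum]
      refine sum_eq_zero (fun P _ => ?_)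
      have := (G_Fl hg hψ 0).2 _ _ (hg' P)
      rwa [Φ.zeroP, Submodule.mem_bot] at this
    · refine ⟨i, hi, e3, ?_⟩
      have := (hg i hi).mem
      rwa [e1, e3] at this

end Pool.Agent.H104Z.Berg
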