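import Pool.Agent.H104Z.Berg.Rep
import Pool.Agent.H104Z.Berg.Defs

set_option autoImplicit false
set_option maxHeartbeats 400000
set_option linter.unusedSectionVars false

/-! The augmentation ideal of the universal ring has the given monoid as nonstable K-theory. -/

namespace Pool.Agent.H104Z.Berg

universe u

open Finset CategoryTheory

variable {M N : Type u} [AddCommMonoid M] [AddCommMonoid N]

theorem eps_ne (hc : ∀ x y : M, x + y = 0 → x = 0 ∧ y = 0) (o : Ob M) :
    ((sys M).blocks hc).ε o ≠ 0 := (wrep hc (fun _ : Unit => o)).ε_ne ()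

/-- The class of an object. -/
def kap : Ob M → WithTop M
  | .U => ⊤
  | .P m => (m.1 : WithTop M)
  | .Q _ => ⊤

theorem kap_add (hc : ∀ x y : M, x + y = 0 → x = 0 ∧ y = 0) (ρ : Bl M) :
    kap (((sys M).blocks hc).X ρ) =
      kap (((sys M).blocks hc).L ρ true) + kap (((sys M).blocks hc).L ρ false) := by
  rcases ρ with m | ⟨a, c⟩
  · exact (WithTop.add_top _).symm
  · exact WithTop.coe_add a.1 c.1

theorem ind.eps_zero {A I Λ F : Type*} [Ring A] [AddCommGroup F] [Module A F] {B : Blocks A I Λ}
    {s : Finset ℕ} {f : ℕ → Item I Λ F} (h : ind B s f) {i : ℕ} (hi : i ∈ s)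
    (hty : B.ε (f i).o • (f i).x = (f i).x) (hx : (f i).x ∈ spn A (s.erase i) f) :
    B.ε (f i).o = 0 := by
  rw [← insert_erase hi, ind_insert (notMem_erase i s) hty] at h
  simpa using h.1 1 (by rwa [one_smul])

theorem inj_aux (hc : ∀ x y : M, x + y = 0 → x = 0 ∧ y = 0) {a b : M} {x y : UR M}
    (h1 : (sys M).e a = x * y) (h2 : (sys M).e b = y * x) : a = b := by
  have hz : ∀ {a b : M} {x y : UR M}, (sys M).e a = x * y → (sys M).e b = y * x → a = 0 →
      b = 0 := by
    intro a b x y h1 h2 ha
    by_contra hb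
    refine eps_ne hc (.P ⟨b, hb⟩) ?_
    change (sys M).e b = 0
    rw [← (sys M).e_idem b, h2, mul_assoc, ← mul_assoc x, ← h1, ha, (sys M).e_zero, zero_mul,
      mul_zero]
  by_cases ha : a = 0
  · rw [ha, hz h1 h2 ha]
  have hb : b ≠ 0 := fun hb => ha (hz h2 h1 hb)
  let oS : Unit → Ob M := fun _ => .P ⟨b, hb⟩
  let T := wrep hc oS
  let v : Unit → UR M := fun _ => (sys M).e a * x * (sys M).e b
  have hv : v ∈ Ty ℚ ((sys M).blocks hc) oS (.P ⟨a, ha⟩) := by
    refine ⟨funext fun _ => ?_, fun _ => ?_⟩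
    · change (sys M).e a * ((sys M).e a * x * (sys M).e b) = (sys M).e a * x * (sys M).e b
      rw [← mul_assoc, ← mul_assoc, (sys M).e_idem]
    · change (sys M).e a * x * (sys M).e b * (sys M).e b = (sys M).e a * x * (sys M).e b
      rw [mul_assoc, (sys M).e_idem]
  obtain ⟨n, hn⟩ := T.filt_exhaust (gen_sys hc) hv
  let f : ℕ → Item (Ob M) (Bl M) (Unit → UR M) := fun _ => ⟨.P ⟨a, ha⟩, v, n, none⟩
  obtain ⟨s', f', hg, ⟨hsp, hrel⟩, hind, htight⟩ := core (Φ := T.filt (gen_sys hc)) (κ := kap)
    (gen_sys hc) (eps_ne hc) (kap_add hc) {0} f (fun _ _ => ok_none hn)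
  have hvy : v () * y = (sys M).e a := by
    change (sys M).e a * x * (sys M).e b * y = _
    rw [h2, mul_assoc, mul_assoc y, ← h1, mul_assoc, ← mul_assoc x, ← h1, (sys M).e_idem,
      (sys M).e_idem]
  have hyv : y * v () = (sys M).e b := by
    change y * ((sys M).e a * x * (sys M).e b) = _
    rw [h1, ← mul_assoc, ← mul_assoc, ← mul_assoc, ← h2, mul_assoc _ y, ← h2, (sys M).e_idem,
      (sys M).e_idem]
  have hcls := (hrel (fun r hr i hi => by
    rw [sum_singleton] at hr
    rw [mem_singleton.1 hi]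
    have h3 : r 0 * v () = 0 := congrFun hr ()
    change r 0 * (sys M).e a = 0
    rw [← hvy, ← mul_assoc, h3, zero_mul])).2
  have hw : (Pi.single () (((sys M).blocks hc).ε (oS ())) : Unit → UR M) = y • v :=
    funext fun _ => hyv.symm
  obtain ⟨i, hi, ho, hF⟩ := htight _ _ (by
      rw [hsp, hw]
      exact Submodule.smul_mem _ _ (mem_spn (f := f) (mem_singleton_self 0)))
    (T.single_mem (gen_sys hc) ()) (fun h => eps_ne hc (oS ()) (congrFun h ()))
  obtain ⟨c, hc'⟩ := T.filt_one (gen_sys hc) hF ()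
  have hc0 : c ≠ 0 := by
    rintro rfl
    refine eps_ne hc _ (hind.eps_zero hi (hg i hi).typ ?_)
    have : (f' i).x = 0 := funext fun _ => by rw [hc', zero_smul]; rfl
    rw [this]
    exact zero_mem _
  have hs : s' = {i} := by
    refine eq_singleton_iff_unique_mem.2 ⟨hi, fun j hj => ?_⟩
    by_contra hne
    refine eps_ne hc _ (hind.eps_zero hj (hg j hj).typ ?_)
    have : (f' j).x = (c⁻¹ • (f' j).x ()) • (f' i).x := funext fun _ => by
      change (f' j).x () = (c⁻¹ • (f' j).x ()) * (f' i).x ()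
      rw [hc', smul_mul_smul_comm, inv_mul_cancel₀ hc0, one_smul]
      exact ((hg j hj).mem.1.2 ()).symm
    rw [this]
    exact Submodule.smul_mem _ _ (mem_spn (mem_erase.2 ⟨Ne.symm hne, hi⟩))
  rw [hs, cls, cls, sum_singleton, sum_singleton, ho] at hcls
  exact (WithTop.coe_injective hcls).symm

theorem diag_aux (m : ℕ → M) (s : Finset ℕ) : ∃ x y : ℕ → UR M,
    ∑ l ∈ s, x l * y l = (sys M).e (∑ l ∈ s, m l) ∧
      (∀ l ∈ s, ∀ l' ∈ s, y l * x l' = if l = l' then (sys M).e (m l) else 0) ∧
      (∀ l ∈ s, y l * (sys M).e (∑ l ∈ s, m l) = y l) ∧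
      (∀ l, chi M (x l) = 0) ∧ ∀ l, chi M (y l) = 0 := by
  induction s using Finset.induction_on with
  | empty => exact ⟨0, 0, by simp [Sys.e_zero], by simp, by simp, by simp, by simp⟩
  | insert j s hj ih =>
    obtain ⟨x, y, h1, h2, h3, h4, h5⟩ := ih
    have hne : ∀ l ∈ s, l ≠ j := fun l hl => by rintro rfl; exact hj hl
    set c := ∑ l ∈ s, m l
    have p1 : (sys M).pr true (m j) c * (sys M).al false (m j) c = 0 := (sys M).pr_al' true _ _
    have p2 : (sys M).pr false (m j) c * (sys M).al true (m j) c = 0 := (sys M).pr_al' false _ _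
    have p3 : (sys M).pr true (m j) c * (sys M).al true (m j) c = (sys M).e (m j) :=
      (sys M).pr_al true _ _
    have p4 : (sys M).pr false (m j) c * (sys M).al false (m j) c = (sys M).e c :=
      (sys M).pr_al false _ _
    have p5 : (sys M).al false (m j) c * (sys M).e c = (sys M).al false (m j) c :=
      (sys M).al_e false _ _
    have q1 : ∀ b, chi M ((sys M).al b (m j) c) = 0 := fun b => chi_gn _
    have q2 : ∀ b, chi M ((sys M).pr b (m j) c) = 0 := fun b => chi_gn _
    refine ⟨fun l => if l = j then (sys M).al true (m j) c else (sys M).al false (m j) c * x l,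
      fun l => if l = j then (sys M).pr true (m j) c else y l * (sys M).pr false (m j) c,
      ?_, ?_, ?_, ?_, ?_⟩
    · beta_reduce
      rw [sum_insert hj, sum_insert hj, if_pos rfl, if_pos rfl, ← (sys M).sum,
        sum_congr rfl (g := fun l => (sys M).al false (m j) c * (x l * y l) *
          (sys M).pr false (m j) c) (fun l hl => by
            rw [if_neg (hne l hl), if_neg (hne l hl)]
            simp only [mul_assoc]), ← sum_mul, ← mul_sum, h1, p5]
    · intro l hl l' hl'
      rcases mem_insert.1 hl with rfl | hm <;> rcases mem_insert.1 hl' with rfl | hm'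
      · simp [p3]
      · simp [hne l' hm', (hne l' hm').symm, ← mul_assoc, p1]
      · simp [hne l hm, mul_assoc, p2]
      · simp only [if_neg (hne l hm), if_neg (hne l' hm')]
        rw [mul_assoc, ← mul_assoc ((sys M).pr false (m j) c), p4, ← mul_assoc, h3 l hm,
          h2 l hm l' hm']
    · intro l _
      beta_reduce
      rw [sum_insert hj]
      split_ifs
      · exact (sys M).pr_e ..
      · rw [mul_assoc, (sys M).pr_e]
    · intro l
      beta_reduce
      split_ifs <;> simp [q1]
    · intro l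
      beta_reduce
      split_ifs <;> simp [q2]

/-- The augmentation ideal. -/
def Aug (M : Type u) [AddCommMonoid M] : NonUnitalSubring (UR M) where
  carrier := {r | chi M r = 0}
  add_mem' := fun {a b} (h : chi M a = 0) (h' : chi M b = 0) => show chi M (a + b) = 0 by
    rw [map_add, h, h', add_zero]
  zero_mem' := map_zero _
  neg_mem' := fun {a} (h : chi M a = 0) => show chi M (-a) = 0 by rw [map_neg, h, neg_zero]
  mul_mem' := fun {a b} (h : chi M a = 0) _ => show chi M (a * b) = 0 by rw [map_mul, h, zero_mul]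

/-- The homomorphism of augmentation ideals induced by a monoid homomorphism. -/
noncomputable def AugMap (f : M →+ N) : Aug M →ₙ+* Aug N where
  toFun r := ⟨Rmap f r.1, (chi_Rmap f r.1).trans r.2⟩
  map_mul' _ _ := Subtype.ext (map_mul (Rmap f) _ _)
  map_zero' := Subtype.ext (map_zero (Rmap f))
  map_add' _ _ := Subtype.ext (map_add (Rmap f) _ _)

theorem coe_mul_apply {ι κ μ : Type} [Fintype κ] (x : Matrix ι κ (Aug M)) (y : Matrix κ μ (Aug M))
    (i : ι) (j : μ) : ((x * y) i j).1 = ∑ k, (x i k).1 * (y k j).1 := by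
  rw [Matrix.mul_apply]
  exact map_sum (Aug M).subtype _ _

theorem MvN_lift {ι κ : Type} [Fintype ι] [Fintype κ] {e : Matrix ι ι (Aug M)}
    {f : Matrix κ κ (Aug M)} (x : ι → κ → UR M) (y : κ → ι → UR M)
    (hx : ∀ i j, chi M (x i j) = 0) (hy : ∀ i j, chi M (y i j) = 0)
    (h1 : ∀ i j, (e i j).1 = ∑ k, x i k * y k j) (h2 : ∀ i j, (f i j).1 = ∑ k, y i k * x k j) :
    MvN e f := by
  refine ⟨Matrix.of fun i j => ⟨x i j, hx i j⟩, Matrix.of fun i j => ⟨y i j, hy i j⟩, ?_, ?_⟩
  · ext i j
    rw [coe_mul_apply, h1]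
    rfl
  · ext i j
    rw [coe_mul_apply, h2]
    rfl

/-- The idempotent of an element of the monoid. -/
noncomputable def eA (m : M) : Aug M := ⟨(sys M).e m, chi_gn _⟩

/-- The idempotent as a one by one matrix. -/
noncomputable def eM (m : M) : Matrix (Fin 1) (Fin 1) (Aug M) := Matrix.of fun _ _ => eA m

/-- The idempotent as an idempotent matrix. -/
noncomputable def eI (m : M) : Idem (Aug M) where
  n := 1
  e := eM m
  idem := by
    ext i j
    rw [coe_mul_apply, Fin.sum_univ_one]
    exact (sys M).e_idem m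

/-- The comparison map. -/
noncomputable def eta (M : Type u) [AddCommMonoid M] : M →+ V (Aug M) where
  toFun m := V.mk (eI m)
  map_zero' := Quotient.sound ⟨0, 0, by
    ext i j
    rw [Matrix.zero_mul]
    exact (sys M).e_zero, by ext i; exact i.elim0⟩
  map_add' a c := by
    refine Quotient.sound (MvN.trans (eI (a + c)).idem (Idem.add (eI a) (eI c)).idem ?_
      (Idem.add_mvn (eI a) (eI c)))
    refine MvN_lift (e := eM (a + c)) (f := Matrix.fromBlocks (eM a) 0 0 (eM c))
      (fun _ j => Sum.elim (fun _ => (sys M).al true a c) (fun _ => (sys M).al false a c) j)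
      (fun j _ => Sum.elim (fun _ => (sys M).pr true a c) (fun _ => (sys M).pr false a c) j)
      ?_ ?_ ?_ ?_
    · rintro _ (j | j) <;> exact chi_gn _
    · rintro (j | j) _ <;> exact chi_gn _
    · intro i j
      rw [Fintype.sum_sum_type, Fin.sum_univ_one, Fin.sum_univ_one]
      exact ((sys M).sum a c).symm
    · intro i j
      rw [Fin.sum_univ_one]
      rcases i with i | i <;> rcases j with j | j
      · exact ((sys M).pr_al true a c).symm
      · exact ((sys M).pr_al' true a c).symm
      · exact ((sys M).pr_al' false a c).symm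
      · exact ((sys M).pr_al false a c).symm

theorem eta_inj (hc : ∀ x y : M, x + y = 0 → x = 0 ∧ y = 0) : Function.Injective (eta M) := by
  intro a b h
  obtain ⟨x, y, h1, h2⟩ : MvN (eM a) (eM b) := Quotient.exact h
  refine inj_aux hc (x := (x 0 0).1) (y := (y 0 0).1) ?_ ?_
  · have := congrArg Subtype.val (congrFun (congrFun h1 0) 0)
    rw [coe_mul_apply, Fin.sum_univ_one] at this
    exact this
  · have := congrArg Subtype.val (congrFun (congrFun h2 0) 0)
    rw [coe_mul_apply, Fin.sum_univ_one] at this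
    exact this

theorem eta_surj (hc : ∀ x y : M, x + y = 0 → x = 0 ∧ y = 0) : Function.Surjective (eta M) := by
  classical
  rintro ⟨⟨n, E, hE⟩⟩
  let oS : Fin n → Ob M := fun _ => .U
  let T := wrep hc oS
  let E' : Matrix (Fin n) (Fin n) (UR M) := E.map Subtype.val
  have hE' : E' * E' = E' := by
    ext i j
    have := congrArg Subtype.val (congrFun (congrFun hE i) j)
    rw [coe_mul_apply] at this
    exact this
  have hχE : ∀ i j, chi M (E' i j) = 0 := fun i j => (E i j).2
  have hv : ∀ i, E' i ∈ Ty ℚ ((sys M).blocks hc) oS .U :=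
    fun i => ⟨one_smul (UR M) _, fun _ => mul_one _⟩
  choose lv hlv using fun i => T.filt_exhaust (gen_sys hc) (hv i)
  let f : ℕ → Item (Ob M) (Bl M) (Fin n → UR M) := fun i =>
    if h : i < n then ⟨.U, E' ⟨i, h⟩, lv ⟨i, h⟩, none⟩ else ⟨.U, 0, 0, none⟩
  have hf : ∀ i : Fin n, f i = ⟨.U, E' i, lv i, none⟩ := fun i => dif_pos i.2
  obtain ⟨s', f', hg, ⟨hsp, -⟩, hind, -⟩ := core (Φ := T.filt (gen_sys hc)) (κ := kap)
    (gen_sys hc) (eps_ne hc) (kap_add hc) (range n) f (fun i hi => by
      rw [show f i = _ from hf ⟨i, mem_range.1 hi⟩]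
      exact ok_none (hlv _))
  let Y : Matrix s' (Fin n) (UR M) := fun l => (f' l).x
  let D : Matrix s' s' (UR M) := Matrix.diagonal fun l => (sys M).eps (f' l).o
  have hDe : ∀ l l', D l l' = if l = l' then (sys M).eps (f' l).o else 0 :=
    fun l l' => Matrix.diagonal_apply ..
  have hrow : ∀ i : Fin n, ∃ c : ℕ → UR M, ∑ l ∈ s', c l • (f' l).x = E' i := by
    intro i
    refine (Submodule.mem_span_image_finset_iff_exists_fun' (UR M)).1 ?_
    have := mem_spn (A := UR M) (f := f) (mem_range.2 i.2)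
    rw [← hsp, hf] at this
    exact this
  choose z hz using hrow
  let Z : Matrix (Fin n) s' (UR M) := fun i l => z i l
  have hZY : Z * Y = E' := by
    ext i j
    rw [← hz i, Finset.sum_apply, Matrix.mul_apply]
    exact sum_coe_sort s' (fun l => z i l * (f' l).x j)
  have hYE : Y * E' = Y := by
    have key : ∀ w ∈ spn (UR M) (range n) f, Matrix.vecMul w E' = w := by
      intro w hw
      induction hw using Submodule.span_induction with
      | mem w hw =>
        obtain ⟨i, hi, rfl⟩ := hw
        have hi' : i < n := mem_range.1 hi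
        change Matrix.vecMul (f i).x E' = (f i).x
        rw [show f i = _ from hf ⟨i, hi'⟩]
        exact congrFun hE' ⟨i, hi'⟩
      | zero => exact Matrix.zero_vecMul _
      | add x y _ _ hx hy => rw [Matrix.add_vecMul, hx, hy]
      | smul r x _ hx => rw [Matrix.smul_vecMul, hx]
    funext l
    exact key _ (hsp ▸ mem_spn l.2)
  have hDY : D * Y = Y := by
    ext l j
    rw [Matrix.diagonal_mul]
    exact congrFun (hg l l.2).typ j
  have hYZD : Y * Z * D = D := by
    ext l l'
    have h1 := hind (fun k => if h : k ∈ s' then (Y * Z - 1 : Matrix s' s' (UR M)) l ⟨k, h⟩ else 0)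
      (by
        rw [← sum_coe_sort s']
        funext j
        have h2 : (Y * Z - 1 : Matrix s' s' (UR M)) * Y = 0 := by
          rw [Matrix.sub_mul, Matrix.one_mul, Matrix.mul_assoc, hZY, hYE, sub_self]
        have h3 := congrFun (congrFun h2 l) j
        rw [Matrix.mul_apply] at h3
        rw [Finset.sum_apply]
        refine Eq.trans (sum_congr rfl (fun k _ => ?_)) h3
        rw [dif_pos k.2]
        rfl) l' l'.2
    rw [dif_pos l'.2, Matrix.sub_apply, sub_mul, sub_eq_zero] at h1
    rw [Matrix.mul_diagonal]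
    refine h1.trans ?_
    by_cases e : l = l'
    · subst e
      rw [Matrix.one_apply_eq, one_mul, hDe, if_pos rfl]
      rfl
    · rw [Matrix.one_apply_ne e, zero_mul, hDe, if_neg e]
  have hχY : ∀ l j, chi M (Y l j) = 0 := by
    intro l j
    rw [← hYE, Matrix.mul_apply, map_sum]
    exact sum_eq_zero (fun k _ => by rw [map_mul, hχE, mul_zero])
  have hχZ : ∀ i l, chi M ((E' * (Z * D)) i l) = 0 := by
    intro i l
    rw [Matrix.mul_apply, map_sum]
    exact sum_eq_zero (fun k _ => by rw [map_mul, hχE, zero_mul])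
  have hm : ∀ l : ℕ, ∃ m : M, l ∈ s' → (sys M).eps (f' l).o = (sys M).e m := by
    intro l
    by_cases hl : l ∈ s'
    swap
    · exact ⟨0, fun h => absurd h hl⟩
    have h1 : chi M ((sys M).eps (f' l).o) = 0 := by
      have h2 : D ⟨l, hl⟩ ⟨l, hl⟩ = (sys M).eps (f' l).o := Matrix.diagonal_apply_eq _ _
      rw [← h2, ← hYZD, Matrix.mul_assoc, Matrix.mul_apply, map_sum]
      exact sum_eq_zero (fun k _ => by rw [map_mul, hχY, zero_mul])
    rcases e : (f' l).o with _ | m | m
    · rw [e, Sys.eps, map_one] at h1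
      exact absurd h1 one_ne_zero
    · exact ⟨m, fun _ => rfl⟩
    · have h3 : chi M ((sys M).e m) = 0 := chi_gn _
      rw [e, Sys.eps, map_sub, map_one, h3, sub_zero] at h1
      exact absurd h1 one_ne_zero
  choose m hm using hm
  obtain ⟨x, y, h1, h2, -, h4, h5⟩ := diag_aux m s'
  let D' : Matrix s' s' (Aug M) := Matrix.diagonal fun l => eA (m l)
  have hD' : ∀ l l', (D' l l').1 = D l l' := by
    intro l l'
    have h6 : D' l l' = if l = l' then eA (m l) else 0 := Matrix.diagonal_apply ..
    rw [h6, hDe]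
    split_ifs
    · exact (hm l l.2).symm
    · rfl
  refine ⟨∑ l ∈ s', m l, Quotient.sound (MvN.trans (f := D') (eI _).idem hE ?_ ?_)⟩
  · refine MvN_lift (e := eM _) (fun _ l => x l) (fun l _ => y l) (fun _ _ => h4 _)
      (fun _ _ => h5 _) ?_ ?_
    · intro i j
      rw [sum_coe_sort s' (fun l => x l * y l), h1]
      rfl
    · intro l l'
      rw [hD', Fin.sum_univ_one, h2 l l.2 l' l'.2, hDe, hm l l.2]
      simp only [Subtype.ext_iff]
  · refine MvN_lift Y (E' * (Z * D) :) hχY hχZ (fun l l' => ?_) (fun i j => ?_)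
    · rw [hD', ← Matrix.mul_apply, ← Matrix.mul_assoc, hYE, ← Matrix.mul_assoc, hYZD]
    · rw [← Matrix.mul_apply, Matrix.mul_assoc, Matrix.mul_assoc, hDY, hZY, hE']
      rfl

/-- The functor from conical commutative monoids to rings. -/
noncomputable def Psi : ConMon.{u} ⥤ Rng.{u} where
  obj M := { carrier := Aug M.carrier }
  map f := AugMap f
  map_id M := NonUnitalRingHom.ext fun r => Subtype.ext (AlgHom.congr_fun Rmap_id r.1)
  map_comp f g := NonUnitalRingHom.ext fun r => Subtype.ext (AlgHom.congr_fun (Rmap_comp f g) r.1)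

theorem eta_nat (f : M →+ N) (m : M) : eta N (f m) = V.map (AugMap f) (eta M m) := by
  change V.mk (eI (f m)) = V.mk (Idem.map (AugMap f) (eI m))
  congr 1
  unfold eI Idem.map eM
  congr 1
  ext i j
  exact (Rmap_gn f (.e m)).symm

theorem main : ∃ Ψ : ConMon.{u} ⥤ Rng.{u}, Nonempty (Ψ ⋙ VFun ≅ 𝟭 ConMon.{u}) := by
  refine ⟨Psi, ⟨Iso.symm (NatIso.ofComponents (fun M => ?_) ?_)⟩⟩
  · let e := AddEquiv.ofBijective (eta M.carrier) ⟨eta_inj M.conical, eta_surj M.conical⟩
    exact ⟨eta M.carrier, e.symm.toAddMonoidHom, AddMonoidHom.ext fun m => e.symm_apply_apply m,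
      AddMonoidHom.ext fun v => e.apply_symm_apply v⟩
  · intro M N f
    exact AddMonoidHom.ext fun m => eta_nat f m

end Pool.Agent.H104Z.Berg
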