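import Mathlib

set_option autoImplicit false
set_option linter.unusedSectionVars false

/-! Families of generators of a submodule, and the moves that simplify them. -/

namespace Pool.Agent.H104Z.Berg

open Finset Submodule

/-- A ring with idempotents `ε o` and block decompositions `X ρ = L ρ true + L ρ false`. -/
structure Blocks (A I Λ : Type*) [Ring A] where
  X : Λ → I
  L : Λ → Bool → I
  ε : I → A
  io : Λ → Bool → A
  pr : Λ → Bool → A
  ε_idem : ∀ o, ε o * ε o = ε o
  ε_io : ∀ ρ b, ε (X ρ) * io ρ b = io ρ b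
  io_ε : ∀ ρ b, io ρ b * ε (L ρ b) = io ρ b
  ε_pr : ∀ ρ b, ε (L ρ b) * pr ρ b = pr ρ b
  pr_ε : ∀ ρ b, pr ρ b * ε (X ρ) = pr ρ b
  pr_io : ∀ ρ b, pr ρ b * io ρ b = ε (L ρ b)
  pr_io' : ∀ ρ b, pr ρ b * io ρ (!b) = 0
  sum : ∀ ρ, io ρ true * pr ρ true + io ρ false * pr ρ false = ε (X ρ)

variable {K A I Λ F C : Type*} [Field K] [Ring A] [Algebra K A]

/-- The object at a port. -/
def Blocks.pobj (B : Blocks A I Λ) : Λ × Option Bool → I
  | (ρ, none) => B.X ρ
  | (ρ, some b) => B.L ρ b

/-- An element of the module with its object, its level and its place. -/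
structure Item (I Λ F : Type*) where
  o : I
  x : F
  n : ℕ
  q : Option (Λ × Bool)

/-- The weight of an item. -/
def Item.wt (t : Item I Λ F) : ℕ := if t.q.isSome then 9 ^ t.n else 3 * 9 ^ t.n

variable [AddCommGroup F] [Module A F] [Module K F] [IsScalarTower K A F] [AddCommMonoid C]

/-- The span of a family. -/
def spn (A : Type*) [Ring A] [Module A F] (s : Finset ℕ) (f : ℕ → Item I Λ F) : Submodule A F :=
  span A ((fun i => (f i).x) '' (s : Set ℕ))

/-- Independence of a family. -/
def ind (B : Blocks A I Λ) (s : Finset ℕ) (f : ℕ → Item I Λ F) : Prop :=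
  ∀ a : ℕ → A, ∑ i ∈ s, a i • (f i).x = 0 → ∀ i ∈ s, a i * B.ε (f i).o = 0

/-- Every element of the family is fixed by the idempotent of its object. -/
def typed (B : Blocks A I Λ) (s : Finset ℕ) (f : ℕ → Item I Λ F) : Prop :=
  ∀ i ∈ s, B.ε (f i).o • (f i).x = (f i).x

/-- The class of a family. -/
def cls (κ : I → C) (s : Finset ℕ) (f : ℕ → Item I Λ F) : C := ∑ i ∈ s, κ (f i).o

/-- The total weight of a family. -/
def mu (s : Finset ℕ) (f : ℕ → Item I Λ F) : ℕ := ∑ i ∈ s, (f i).wt

/-- The second family has the same span, and independence and class are inherited. -/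
def Rel (B : Blocks A I Λ) (κ : I → C) (s : Finset ℕ) (f : ℕ → Item I Λ F) (s' : Finset ℕ)
    (f' : ℕ → Item I Λ F) : Prop :=
  spn A s' f' = spn A s f ∧ (ind B s f → ind B s' f' ∧ cls κ s' f' = cls κ s f)

variable {B : Blocks A I Λ} {κ : I → C} {s t s' s'' : Finset ℕ} {f f' f'' : ℕ → Item I Λ F}

theorem Rel.refl : Rel B κ s f s f := ⟨rfl, fun h => ⟨h, rfl⟩⟩

theorem Rel.trans (h : Rel B κ s f s' f') (h' : Rel B κ s' f' s'' f'') : Rel B κ s f s'' f'' :=
  ⟨h'.1.trans h.1, fun hi => ⟨(h'.2 (h.2 hi).1).1, (h'.2 (h.2 hi).1).2.trans (h.2 hi).2⟩⟩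

theorem mem_spn {i : ℕ} (hi : i ∈ s) : (f i).x ∈ spn A s f := subset_span ⟨i, hi, rfl⟩

theorem spn_mono (h : s ⊆ t) : spn A s f ≤ spn A t f :=
  span_mono (Set.image_mono (by exact_mod_cast h))

theorem spn_congr (h : ∀ l ∈ t, f' l = f l) : spn A t f' = spn A t f := by
  unfold spn
  congr 1
  exact Set.image_congr (fun l hl => by rw [h l hl])

theorem ind_congr (h : ∀ l ∈ t, f' l = f l) (hi : ind B t f) : ind B t f' := by
  intro a ha i hit
  rw [h i hit]
  refine hi a ?_ i hit
  rw [← ha]
  exact sum_congr rfl (fun l hl => by rw [h l hl])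

theorem cls_congr (h : ∀ l ∈ t, f' l = f l) : cls κ t f' = cls κ t f :=
  sum_congr rfl (fun l hl => by rw [h l hl])

theorem mu_congr (h : ∀ l ∈ t, f' l = f l) : mu t f' = mu t f :=
  sum_congr rfl (fun l hl => by rw [h l hl])

theorem spn_insert (i : ℕ) : spn A (insert i t) f = span A {(f i).x} ⊔ spn A t f := by
  unfold spn
  rw [coe_insert, Set.image_insert_eq, span_insert]

theorem mem_spn_insert {i : ℕ} {v : F} :
    v ∈ spn A (insert i t) f ↔ ∃ r : A, v - r • (f i).x ∈ spn A t f := by
  rw [spn_insert, Submodule.mem_sup]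
  constructor
  · rintro ⟨y, hy, z, hz, rfl⟩
    obtain ⟨r, rfl⟩ := mem_span_singleton.1 hy
    exact ⟨r, by simpa using hz⟩
  · rintro ⟨r, hr⟩
    exact ⟨r • (f i).x, mem_span_singleton.2 ⟨r, rfl⟩, _, hr, by simp⟩

theorem ind_insert {j : ℕ} (hj : j ∉ t) (hty : B.ε (f j).o • (f j).x = (f j).x) :
    ind B (insert j t) f ↔
      (∀ r : A, r • (f j).x ∈ spn A t f → r * B.ε (f j).o = 0) ∧ ind B t f := by
  classical
  constructor
  · intro h
    constructor
    · intro r hr
      obtain ⟨c, hc⟩ := (mem_span_image_finset_iff_exists_fun' A).1 hr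
      have := h (Function.update (fun i => -c i) j r) ?_ j (mem_insert_self _ _)
      · simpa using this
      · rw [sum_insert hj, Function.update_self, ← hc, ← sum_add_distrib]
        refine sum_eq_zero (fun l hl => ?_)
        rw [Function.update_of_ne (by rintro rfl; exact hj hl)]
        simp
    · intro a ha i hi
      have hne : ∀ l ∈ t, l ≠ j := fun l hl => by rintro rfl; exact hj hl
      have := h (Function.update a j 0) ?_ i (mem_insert_of_mem hi)
      · rwa [Function.update_of_ne (hne i hi)] at this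
      · rw [sum_insert hj, Function.update_self, zero_smul, zero_add, ← ha]
        exact sum_congr rfl (fun l hl => by rw [Function.update_of_ne (hne l hl)])
  · rintro ⟨h1, h2⟩ a ha
    rw [sum_insert hj] at ha
    have h3 : a j * B.ε (f j).o = 0 := by
      apply h1
      rw [eq_neg_of_add_eq_zero_left ha]
      exact neg_mem (sum_mem (fun l hl => smul_mem _ _ (mem_spn hl)))
    have h4 : a j • (f j).x = 0 := by rw [← hty, ← mul_smul, h3, zero_smul]
    rw [h4, zero_add] at ha
    intro i hi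
    rcases mem_insert.1 hi with rfl | hi
    · exact h3
    · exact h2 a ha i hi

theorem relT {i : ℕ} (hi : i ∉ t) (hag : ∀ l ∈ t, f' l = f l) (ho : (f' i).o = (f i).o)
    (hty : B.ε (f i).o • (f i).x = (f i).x) (hty' : B.ε (f' i).o • (f' i).x = (f' i).x)
    {c : K} (hc : c ≠ 0) (hy : (f' i).x - c • (f i).x ∈ spn A t f) :
    Rel B κ (insert i t) f (insert i t) f' := by
  have hsp := spn_congr (A := A) hag
  refine ⟨le_antisymm ?_ ?_, fun h => ⟨?_, ?_⟩⟩
  · rw [spn_insert, sup_le_iff, span_singleton_le_iff_mem, hsp]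
    refine ⟨mem_spn_insert.2 ⟨algebraMap K A c, ?_⟩, spn_mono (subset_insert _ _)⟩
    rwa [algebraMap_smul]
  · rw [spn_insert, sup_le_iff, span_singleton_le_iff_mem, ← hsp]
    refine ⟨mem_spn_insert.2 ⟨algebraMap K A c⁻¹, ?_⟩, spn_mono (subset_insert _ _)⟩
    rw [hsp]
    have := (spn A t f).smul_mem (algebraMap K A (-c⁻¹)) hy
    rw [algebraMap_smul] at this ⊢
    convert this using 1
    rw [smul_sub, smul_smul, neg_mul, inv_mul_cancel₀ hc]
    simp [sub_eq_add_neg, add_comm]
  · rw [ind_insert hi hty] at h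
    rw [ind_insert hi hty']
    refine ⟨fun r hr => ?_, ind_congr hag h.2⟩
    rw [hsp] at hr
    have h1 : (r * algebraMap K A c) • (f i).x ∈ spn A t f := by
      have := sub_mem hr ((spn A t f).smul_mem r hy)
      rw [mul_smul, algebraMap_smul]
      convert this using 1
      rw [smul_sub]
      abel
    have h2 := h.1 _ h1
    rw [ho]
    have h3 : r * B.ε (f i).o = algebraMap K A c⁻¹ * (r * algebraMap K A c * B.ε (f i).o) := by
      rw [← Algebra.commutes c r, mul_assoc, ← mul_assoc (algebraMap K A c⁻¹), ← map_mul,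
        inv_mul_cancel₀ hc, map_one, one_mul]
    rw [h3, h2, mul_zero]
  · unfold cls
    rw [sum_insert hi, sum_insert hi, ho]
    congr 1
    exact cls_congr hag

theorem relD {i : ℕ} (hi : i ∉ t) (hne : B.ε (f i).o ≠ 0) (hty : B.ε (f i).o • (f i).x = (f i).x)
    (hx : (f i).x ∈ spn A t f) : Rel B κ (insert i t) f t f := by
  refine ⟨le_antisymm (spn_mono (subset_insert _ _)) ?_, fun h => ?_⟩
  · rw [spn_insert, sup_le_iff, span_singleton_le_iff_mem]
    exact ⟨hx, le_rfl⟩
  · rw [ind_insert hi hty] at h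
    have := h.1 1 (by rwa [one_smul])
    rw [one_mul] at this
    exact absurd this hne

theorem relS (hκ : ∀ ρ, κ (B.X ρ) = κ (B.L ρ true) + κ (B.L ρ false)) {i j : ℕ} {ρ : Λ}
    (hi : i ∉ t) (hj : j ∉ insert i t) (hag : ∀ l ∈ t, f' l = f l) (ho : (f i).o = B.X ρ)
    (hoi : (f' i).o = B.L ρ true) (hoj : (f' j).o = B.L ρ false)
    (hty : B.ε (f i).o • (f i).x = (f i).x)
    (hxi : (f' i).x = B.pr ρ true • (f i).x) (hxj : (f' j).x = B.pr ρ false • (f i).x) :
    Rel B κ (insert i t) f (insert j (insert i t)) f' ∧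
      Rel B κ (insert j (insert i t)) f' (insert i t) f := by
  have hsp := spn_congr (A := A) hag
  have htyi : B.ε (f' i).o • (f' i).x = (f' i).x := by rw [hoi, hxi, ← mul_smul, B.ε_pr]
  have htyj : B.ε (f' j).o • (f' j).x = (f' j).x := by rw [hoj, hxj, ← mul_smul, B.ε_pr]
  have hdec : (f i).x = B.io ρ true • (f' i).x + B.io ρ false • (f' j).x := by
    rw [hxi, hxj, ← mul_smul, ← mul_smul, ← add_smul, B.sum, ← ho, hty]
  have h1 : spn A (insert j (insert i t)) f' = spn A (insert i t) f := by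
    apply le_antisymm
    · rw [spn_insert, spn_insert (f := f'), sup_le_iff, sup_le_iff, span_singleton_le_iff_mem,
        span_singleton_le_iff_mem, hsp, hxi, hxj]
      exact ⟨smul_mem _ _ (mem_spn (mem_insert_self _ _)),
        smul_mem _ _ (mem_spn (mem_insert_self _ _)), spn_mono (subset_insert _ _)⟩
    · rw [spn_insert (f := f), sup_le_iff, span_singleton_le_iff_mem, ← hsp, hdec]
      exact ⟨add_mem (smul_mem _ _ (mem_spn (by simp))) (smul_mem _ _ (mem_spn (by simp))),
        spn_mono ((subset_insert _ _).trans (subset_insert _ _))⟩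
  have h2 : cls κ (insert j (insert i t)) f' = cls κ (insert i t) f := by
    unfold cls
    rw [sum_insert hj, sum_insert hi, sum_insert hi, ho, hoi, hoj, hκ, ← add_assoc,
      add_comm (κ (B.L ρ false))]
    congr 1
    exact cls_congr hag
  have h3 : ind B (insert i t) f ↔ ind B (insert j (insert i t)) f' := by
    rw [ind_insert hj htyj, ind_insert hi htyi, ind_insert hi hty, hsp]
    constructor
    · rintro ⟨h, h'⟩
      refine ⟨fun r hr => ?_, fun r hr => ?_, ind_congr hag h'⟩
      · obtain ⟨r', hr'⟩ := mem_spn_insert.1 hr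
        rw [hsp, hxi, hxj, ← mul_smul, ← mul_smul, ← sub_smul] at hr'
        have h4 := congrArg (· * B.io ρ false) (h _ hr')
        have h5 : B.pr ρ true * B.io ρ false = 0 := B.pr_io' ρ true
        simp only [ho, mul_assoc, B.ε_io, sub_mul, B.pr_io, h5, mul_zero, sub_zero,
          zero_mul] at h4
        rw [hoj, h4]
      · rw [hxi, ← mul_smul] at hr
        have h4 := congrArg (· * B.io ρ true) (h _ hr)
        simp only [ho, mul_assoc, B.ε_io, B.pr_io, zero_mul] at h4
        rw [hoi, h4]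
    · rintro ⟨h, h', h''⟩
      refine ⟨fun r hr => ?_, ind_congr (fun l hl => (hag l hl).symm) h''⟩
      rw [hdec, smul_add, ← mul_smul, ← mul_smul] at hr
      have h4 : r * B.io ρ false * B.ε (f' j).o = 0 := by
        apply h
        refine mem_spn_insert.2 ⟨-(r * B.io ρ true), ?_⟩
        rw [hsp, neg_smul, sub_neg_eq_add, add_comm]
        exact hr
      rw [hoj, mul_assoc, B.io_ε] at h4
      rw [h4, zero_smul, add_zero] at hr
      have h5 := h' _ hr
      rw [hoi, mul_assoc, B.io_ε] at h5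
      rw [ho, ← B.sum, mul_add, ← mul_assoc, ← mul_assoc, h4, h5, zero_mul, zero_mul, add_zero]
  exact ⟨⟨h1, fun h => ⟨h3.1 h, h2⟩⟩, ⟨h1.symm, fun h => ⟨h3.2 h, h2.symm⟩⟩⟩

end Pool.Agent.H104Z.Berg
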