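import Pool.Agent.H104Z.Berg.Moves

set_option autoImplicit false
set_option linter.unusedSectionVars false

/-! Filtered modules and the weight decreasing moves. -/

namespace Pool.Agent.H104Z.Berg

open Finset Submodule

variable {K A I Λ F C : Type*} [Field K] [Ring A] [Algebra K A]

/-- Length filtrations of a module, by object and by last port. -/
structure Filt (K : Type*) [Field K] [Algebra K A] (B : Blocks A I Λ) (F : Type*) [AddCommGroup F]
    [Module A F] [Module K F] where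
  Fl : ℕ → I → Submodule K F
  FP : ℕ → Λ × Option Bool → Submodule K F
  Oth : ℕ → Λ × Option Bool → Submodule K F
  typ : ∀ n o v, v ∈ Fl n o → B.ε o • v = v
  zero : ∀ o, Fl 0 o = ⊥
  zeroP : ∀ P, FP 0 P = ⊥
  le1 : ∀ n P, Fl n (B.pobj P) ≤ FP n P
  le2 : ∀ n P, FP n P ≤ Fl (n + 1) (B.pobj P)
  mono : ∀ n o, Fl n o ≤ Fl (n + 1) o
  pr_FP : ∀ n ρ b v, v ∈ FP n (ρ, none) → B.pr ρ b • v ∈ FP n (ρ, some b)
  io_FP : ∀ n ρ b v, v ∈ FP n (ρ, some b) → B.io ρ b • v ∈ FP n (ρ, none)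
  f3 : ∀ n ρ b u, u ∈ Fl (n + 1) (B.X ρ) → B.pr ρ b • u ∈ Fl (n + 1) (B.L ρ b) →
    u ∈ FP n (ρ, none)
  oth1 : ∀ n P, Fl n (B.pobj P) ≤ Oth n P
  oth2 : ∀ n P P', P' ≠ P → B.pobj P' = B.pobj P → FP n P' ≤ Oth n P
  oth3 : ∀ n P v, v ∈ FP n P → v ∈ Oth n P → v ∈ Fl n (B.pobj P)

variable [AddCommGroup F] [Module A F] [Module K F] [IsScalarTower K A F] [AddCommMonoid C]
  {B : Blocks A I Λ}

/-- The element of an item lies in the filtration step given by its level and place. -/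
def Filt.OK (Φ : Filt K B F) (t : Item I Λ F) : Prop :=
  (t.q = none → t.x ∈ Φ.Fl (t.n + 1) t.o) ∧
    ∀ ρ b, t.q = some (ρ, b) → t.o = B.L ρ b ∧ t.x ∈ Φ.FP t.n (ρ, some b)

/-- All items are well placed. -/
def Filt.Good (Φ : Filt K B F) (s : Finset ℕ) (f : ℕ → Item I Λ F) : Prop := ∀ i ∈ s, Φ.OK (f i)

/-- The family can be replaced by one of smaller weight. -/
def Filt.Red (Φ : Filt K B F) (κ : I → C) (s : Finset ℕ) (f : ℕ → Item I Λ F) : Prop :=
  ∃ s' f', Φ.Good s' f' ∧ mu s' f' < mu s f ∧ Rel B κ s f s' f'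

variable {Φ : Filt K B F} {κ : I → C} {s : Finset ℕ} {f : ℕ → Item I Λ F}

theorem Filt.OK.mem {t : Item I Λ F} (h : Φ.OK t) : t.x ∈ Φ.Fl (t.n + 1) t.o := by
  rcases hq : t.q with _ | ⟨ρ, b⟩
  · exact h.1 hq
  · obtain ⟨h1, h2⟩ := h.2 ρ b hq
    rw [h1]
    exact Φ.le2 _ _ h2

theorem Filt.OK.typ {t : Item I Λ F} (h : Φ.OK t) : B.ε t.o • t.x = t.x := Φ.typ _ _ _ h.mem

theorem ok_none {o : I} {y : F} {n : ℕ} (h : y ∈ Φ.Fl (n + 1) o) : Φ.OK ⟨o, y, n, none⟩ :=
  ⟨fun _ => h, fun _ _ h => by simp at h⟩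

theorem ok_some {ρ : Λ} {b : Bool} {y : F} {n : ℕ} (h : y ∈ Φ.FP n (ρ, some b)) :
    Φ.OK ⟨B.L ρ b, y, n, some (ρ, b)⟩ := by
  refine ⟨fun h => by simp at h, fun ρ' b' h' => ?_⟩
  simp only [Option.some.injEq, Prod.mk.injEq] at h'
  obtain ⟨rfl, rfl⟩ := h'
  exact ⟨rfl, h⟩

theorem Item.wt_ge (t : Item I Λ F) : 9 ^ t.n ≤ t.wt := by
  unfold Item.wt
  split_ifs <;> omega

theorem mu_insert {i : ℕ} (hi : i ∉ s) : mu (insert i s) f = (f i).wt + mu s f := sum_insert hi

theorem tmove (hg : Φ.Good s f) {i : ℕ} (hi : i ∈ s) {c : K} (hc : c ≠ 0) (t : Item I Λ F)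
    (ho : t.o = (f i).o) (hok : Φ.OK t) (hy : t.x - c • (f i).x ∈ spn A (s.erase i) f) :
    Φ.Good s (Function.update f i t) ∧ Rel B κ s f s (Function.update f i t) ∧
      mu s (Function.update f i t) + (f i).wt = mu s f + t.wt := by
  have hag : ∀ l ∈ s.erase i, Function.update f i t l = f l :=
    fun l hl => Function.update_of_ne (ne_of_mem_erase hl) _ _
  refine ⟨fun l hl => ?_, ?_, ?_⟩
  · by_cases h : l = i
    · rw [h, Function.update_self]
      exact hok
    · rw [Function.update_of_ne h]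
      exact hg l hl
  · have := relT (B := B) (κ := κ) (f := f) (f' := Function.update f i t) (notMem_erase i s) hag
      (by rw [Function.update_self]; exact ho) (hg i hi).typ
      (by rw [Function.update_self]; exact hok.typ) hc (by rw [Function.update_self]; exact hy)
    rwa [insert_erase hi] at this
  · rw [← insert_erase hi, mu_insert (notMem_erase i s), mu_insert (notMem_erase i s),
      mu_congr hag, Function.update_self]
    omega

theorem red_zero (hne : ∀ o, B.ε o ≠ 0) (hg : Φ.Good s f) {i : ℕ} (hi : i ∈ s)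
    (hx : (f i).x ∈ spn A (s.erase i) f) : Φ.Red κ s f := by
  refine ⟨s.erase i, f, fun l hl => hg l (mem_of_mem_erase hl), ?_, ?_⟩
  · conv_rhs => rw [← insert_erase hi, mu_insert (notMem_erase i s)]
    have := (f i).wt_ge
    have : 0 < 9 ^ (f i).n := by positivity
    omega
  · have := relD (B := B) (κ := κ) (f := f) (notMem_erase i s) (hne _) (hg i hi).typ hx
    rwa [insert_erase hi] at this

theorem red_Fl (hne : ∀ o, B.ε o ≠ 0) (hg : Φ.Good s f) {i : ℕ} (hi : i ∈ s) {c : K} (hc : c ≠ 0)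
    {y : F} (hy : y - c • (f i).x ∈ spn A (s.erase i) f) (hF : y ∈ Φ.Fl (f i).n (f i).o) :
    Φ.Red κ s f := by
  rcases hn : (f i).n with _ | m
  · rw [hn, Φ.zero, Submodule.mem_bot] at hF
    refine red_zero hne hg hi ?_
    have := (spn A (s.erase i) f).smul_mem (algebraMap K A (-c⁻¹)) hy
    rwa [algebraMap_smul, hF, zero_sub, smul_neg, smul_smul, neg_mul, inv_mul_cancel₀ hc, neg_smul,
      neg_neg, one_smul] at this
  · rw [hn] at hF
    obtain ⟨h1, h2, h3⟩ := tmove (κ := κ) hg hi hc ⟨(f i).o, y, m, none⟩ rfl (ok_none hF) hy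
    refine ⟨s, _, h1, ?_, h2⟩
    have h4 := (f i).wt_ge
    have h5 : (⟨(f i).o, y, m, none⟩ : Item I Λ F).wt = 3 * 9 ^ m := by simp [Item.wt]
    have : 0 < 9 ^ m := by positivity
    rw [hn, pow_succ] at h4
    omega

theorem red_FP (hκ : ∀ ρ, κ (B.X ρ) = κ (B.L ρ true) + κ (B.L ρ false)) (hg : Φ.Good s f) {i : ℕ}
    (hi : i ∈ s) {c : K} (hc : c ≠ 0) {y : F} (hy : y - c • (f i).x ∈ spn A (s.erase i) f)
    (hq : (f i).q = none) {P : Λ × Option Bool} (ho : (f i).o = B.pobj P)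
    (hF : y ∈ Φ.FP (f i).n P) : Φ.Red κ s f := by
  have hw : (f i).wt = 3 * 9 ^ (f i).n := by simp [Item.wt, hq]
  have hpos : 0 < 9 ^ (f i).n := by positivity
  obtain ⟨ρ, _ | b⟩ := P
  · obtain ⟨h1, h2, h3⟩ := tmove (κ := κ) hg hi hc ⟨(f i).o, y, (f i).n, none⟩ rfl
      (ok_none (by rw [ho]; exact Φ.le2 _ _ hF)) hy
    obtain ⟨j, hj⟩ := Infinite.exists_notMem_finset s
    have hij : i ≠ j := by rintro rfl; exact hj hi
    set f1 := Function.update f i ⟨(f i).o, y, (f i).n, none⟩ with hf1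
    set f2 := Function.update (Function.update f i
      ⟨B.L ρ true, B.pr ρ true • y, (f i).n, some (ρ, true)⟩) j
      ⟨B.L ρ false, B.pr ρ false • y, (f i).n, some (ρ, false)⟩ with hf2
    have e1 : f1 i = ⟨(f i).o, y, (f i).n, none⟩ := Function.update_self ..
    have e2 : f2 i = ⟨B.L ρ true, B.pr ρ true • y, (f i).n, some (ρ, true)⟩ := by
      rw [hf2, Function.update_of_ne hij, Function.update_self]
    have e3 : f2 j = ⟨B.L ρ false, B.pr ρ false • y, (f i).n, some (ρ, false)⟩ :=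
      Function.update_self ..
    have hag0 : ∀ l ∈ s.erase i, f2 l = f l := fun l hl => by
      rw [hf2, Function.update_of_ne (by rintro rfl; exact hj (mem_of_mem_erase hl)),
        Function.update_of_ne (ne_of_mem_erase hl)]
    have hag : ∀ l ∈ s.erase i, f2 l = f1 l := fun l hl => by
      rw [hag0 l hl, hf1, Function.update_of_ne (ne_of_mem_erase hl)]
    have h4 := (relS (f := f1) (f' := f2) hκ (ρ := ρ) (notMem_erase i s)
      (j := j) (by rwa [insert_erase hi]) hag (by rw [e1]; exact ho) (by rw [e2]) (by rw [e3])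
      (h1 i hi).typ (by rw [e1, e2]) (by rw [e1, e3])).1
    rw [insert_erase hi] at h4
    refine ⟨insert j s, f2, fun l hl => ?_, ?_, h2.trans h4⟩
    · rcases mem_insert.1 hl with rfl | hl
      · rw [e3]
        exact ok_some (Φ.pr_FP _ _ _ _ hF)
      · by_cases h : l = i
        · rw [h, e2]
          exact ok_some (Φ.pr_FP _ _ _ _ hF)
        · rw [hag0 l (mem_erase.2 ⟨h, hl⟩)]
          exact hg l hl
    · rw [mu_insert hj, ← insert_erase hi, mu_insert (notMem_erase i s),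
        mu_insert (notMem_erase i s), mu_congr hag0, e2, e3, hw]
      simp only [Item.wt, Option.isSome_some, if_true]
      omega
  · obtain ⟨h1, h2, h3⟩ := tmove (κ := κ) hg hi hc ⟨B.L ρ b, y, (f i).n, some (ρ, b)⟩ ho.symm
      (ok_some hF) hy
    refine ⟨s, _, h1, ?_, h2⟩
    have h5 : (⟨B.L ρ b, y, (f i).n, some (ρ, b)⟩ : Item I Λ F).wt = 9 ^ (f i).n := by
      simp [Item.wt]
    omega

theorem red_join (hκ : ∀ ρ, κ (B.X ρ) = κ (B.L ρ true) + κ (B.L ρ false)) (hg : Φ.Good s f)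
    {i j m : ℕ} {ρ : Λ} (hi : i ∈ s) (hj : j ∈ s) (hni : (f i).n = m + 1) (hnj : (f j).n = m + 1)
    (hqi : (f i).q = some (ρ, true)) (hqj : (f j).q = some (ρ, false)) {c d : K} (hc : c ≠ 0)
    (hd : d ≠ 0) {y z : F} (hy : y - c • (f i).x ∈ spn A ((s.erase j).erase i) f)
    (hz : z - d • (f j).x ∈ spn A ((s.erase j).erase i) f)
    (hyF : y ∈ Φ.FP (m + 1) (ρ, some true)) (hzF : z ∈ Φ.FP (m + 1) (ρ, some false))
    (hF : B.io ρ true • y + B.io ρ false • z ∈ Φ.Fl (m + 1) (B.X ρ)) : Φ.Red κ s f := by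
  have hij : i ≠ j := by
    rintro rfl
    rw [hqi] at hqj
    simp at hqj
  have hi' : i ∈ s.erase j := mem_erase.2 ⟨hij, hi⟩
  have hoi := ((hg i hi).2 ρ true hqi).1
  have hoj := ((hg j hj).2 ρ false hqj).1
  obtain ⟨h1, h2, h3⟩ := tmove (κ := κ) hg hi hc ⟨B.L ρ true, y, m + 1, some (ρ, true)⟩ hoi.symm
    (ok_some hyF) (spn_mono (erase_subset_erase _ (erase_subset _ _)) hy)
  set f1 := Function.update f i ⟨B.L ρ true, y, m + 1, some (ρ, true)⟩ with hf1
  have e0 : f1 j = f j := Function.update_of_ne hij.symm _ _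
  have hag1 : ∀ l ∈ (s.erase j).erase i, f1 l = f l :=
    fun l hl => Function.update_of_ne (ne_of_mem_erase hl) _ _
  obtain ⟨h4, h5, h6⟩ := tmove (κ := κ) h1 hj hd ⟨B.L ρ false, z, m + 1, some (ρ, false)⟩
    (by rw [e0]; exact hoj.symm) (ok_some hzF)
    (by rw [e0]; exact spn_mono (erase_subset i _) (by rwa [spn_congr hag1]))
  set f2 := Function.update f1 j ⟨B.L ρ false, z, m + 1, some (ρ, false)⟩ with hf2
  set f3 := Function.update f i ⟨B.X ρ, B.io ρ true • y + B.io ρ false • z, m, none⟩ with hf3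
  have e1 : f2 i = ⟨B.L ρ true, y, m + 1, some (ρ, true)⟩ := by
    rw [hf2, Function.update_of_ne hij, hf1, Function.update_self]
  have e2 : f2 j = ⟨B.L ρ false, z, m + 1, some (ρ, false)⟩ := Function.update_self ..
  have e3 : f3 i = ⟨B.X ρ, B.io ρ true • y + B.io ρ false • z, m, none⟩ := Function.update_self ..
  have hag3 : ∀ l ∈ (s.erase j).erase i, f3 l = f l :=
    fun l hl => Function.update_of_ne (ne_of_mem_erase hl) _ _
  have hag : ∀ l ∈ (s.erase j).erase i, f2 l = f3 l := fun l hl => by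
    rw [hag3 l hl, hf2, Function.update_of_ne (ne_of_mem_erase (mem_of_mem_erase hl)), hag1 l hl]
  have hty : B.ε (B.L ρ true) • y = y := Φ.typ _ _ _ (Φ.le2 _ _ hyF)
  have htz : B.ε (B.L ρ false) • z = z := Φ.typ _ _ _ (Φ.le2 _ _ hzF)
  have p1 : B.pr ρ true * B.io ρ false = 0 := B.pr_io' ρ true
  have p2 : B.pr ρ false * B.io ρ true = 0 := B.pr_io' ρ false
  have h7 := (relS (f := f3) (f' := f2) hκ (ρ := ρ) (notMem_erase i (s.erase j))
    (j := j) (by rw [insert_erase hi']; exact notMem_erase j s) hag (by rw [e3]) (by rw [e1])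
    (by rw [e2]) (by rw [e3]; exact Φ.typ _ _ _ hF)
    (by rw [e1, e3]; simp only [smul_add, ← mul_smul, B.pr_io, p1, hty, zero_smul, add_zero])
    (by rw [e2, e3]; simp only [smul_add, ← mul_smul, B.pr_io, p2, htz, zero_smul, zero_add])).2
  rw [insert_erase hi', insert_erase hj] at h7
  refine ⟨s.erase j, f3, fun l hl => ?_, ?_, (h2.trans h5).trans h7⟩
  · by_cases h : l = i
    · rw [h, e3]
      exact ok_none hF
    · rw [hag3 l (mem_erase.2 ⟨h, hl⟩)]
      exact hg l (mem_of_mem_erase hl)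
  · conv_rhs => rw [← insert_erase hj, mu_insert (notMem_erase j s)]
    rw [← insert_erase hi', mu_insert (notMem_erase i _), mu_insert (notMem_erase i _),
      mu_congr hag3, e3]
    have h8 := (f i).wt_ge
    have h9 : (⟨B.X ρ, B.io ρ true • y + B.io ρ false • z, m, none⟩ : Item I Λ F).wt
      = 3 * 9 ^ m := by simp [Item.wt]
    have : 0 < 9 ^ m := by positivity
    rw [hni, pow_succ] at h8
    omega

end Pool.Agent.H104Z.Berg
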