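import Pool.Agent.H104Z.Berg.Ring

set_option autoImplicit false
set_option maxHeartbeats 400000
set_option linter.unusedSectionVars false

/-! The representation of the universal ring on words. -/

namespace Pool.Agent.H104Z.Berg

universe u

variable {M : Type u} [AddCommMonoid M] {A : Type*} [Ring A]

section Rep

open Word

variable (hc : ∀ x y : M, x + y = 0 → x = 0 ∧ y = 0) {S : Type} [Fintype S] [DecidableEq S]
  (oS : S → Ob M)

/-- The inclusion of an object into the unit object. -/
def Blocks.up (B : Blocks A (Ob M) (Bl M)) : Ob M → A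
  | .U => B.ε .U
  | .P m => B.io (.ub m) true
  | .Q m => B.io (.ub m) false

/-- The projection of the unit object onto an object. -/
def Blocks.down (B : Blocks A (Ob M) (Bl M)) : Ob M → A
  | .U => B.ε .U
  | .P m => B.pr (.ub m) true
  | .Q m => B.pr (.ub m) false

/-- The blocks acting on words. -/
noncomputable abbrev BWs := BW ℚ ((sys M).blocks hc) oS

theorem du (o : Ob M) : (BWs hc oS).down o * (BWs hc oS).up o = (BWs hc oS).ε o := by
  rcases o with _ | m | m
  exacts [(BWs hc oS).ε_idem _, (BWs hc oS).pr_io (.ub m) true, (BWs hc oS).pr_io (.ub m) false]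

theorem uE (o : Ob M) : (BWs hc oS).up o * (BWs hc oS).ε o = (BWs hc oS).up o := by
  rcases o with _ | m | m
  exacts [(BWs hc oS).ε_idem _, (BWs hc oS).io_ε (.ub m) true, (BWs hc oS).io_ε (.ub m) false]

theorem Ed (o : Ob M) : (BWs hc oS).ε o * (BWs hc oS).down o = (BWs hc oS).down o := by
  rcases o with _ | m | m
  exacts [(BWs hc oS).ε_idem _, (BWs hc oS).ε_pr (.ub m) true, (BWs hc oS).ε_pr (.ub m) false]

theorem Eu (o : Ob M) : (BWs hc oS).ε .U * (BWs hc oS).up o = (BWs hc oS).up o := by
  rcases o with _ | m | m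
  exacts [(BWs hc oS).ε_idem _, (BWs hc oS).ε_io (.ub m) true, (BWs hc oS).ε_io (.ub m) false]

theorem dE (o : Ob M) : (BWs hc oS).down o * (BWs hc oS).ε .U = (BWs hc oS).down o := by
  rcases o with _ | m | m
  exacts [(BWs hc oS).ε_idem _, (BWs hc oS).pr_ε (.ub m) true, (BWs hc oS).pr_ε (.ub m) false]

/-- The blocks on words, moved to the unit object. -/
noncomputable def BC := (BWs hc oS).conj _ _ (du hc oS) (uE hc oS) (Ed hc oS)

/-- The system on words. -/
noncomputable def sysW : Sys M (Module.End ℚ (Word S (Bl M) →₀ ℚ)) :=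
  (BC hc oS).sys (fun a c => eZ_nz _ ⟨a.1 + c.1, fun h => a.2 (hc _ _ h).1⟩)
    (fun b a c => by rw [← coe_cond]; exact eZ_nz _ _)

theorem lift_eps (o : Ob M) : (sysW hc oS).lift ((sys M).eps o) * (BWs hc oS).ε .U =
    (BWs hc oS).up o * (BWs hc oS).down o := by
  have h : ∀ m : {m : M // m ≠ 0}, (sysW hc oS).lift ((sys M).e m) =
      (BWs hc oS).up (.P m) * (BWs hc oS).down (.P m) :=
    fun m => ((sysW hc oS).lift_gn (.e m)).trans (eZ_nz _ m)
  rcases o with _ | m | m
  · rw [Sys.eps, map_one, one_mul]
    exact ((BWs hc oS).ε_idem _).symm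
  · rw [Sys.eps, h, mul_assoc, dE]
  · rw [Sys.eps, map_sub, map_one, h, sub_mul, one_mul, mul_assoc, dE, sub_eq_iff_eq_add, add_comm]
    exact ((BWs hc oS).sum (.ub m)).symm

/-- The representation of the universal ring on words. -/
noncomputable def wrep : WRep ℚ ((sys M).blocks hc) oS .U where
  Θ := (sysW hc oS).lift
  u := (BWs hc oS).up
  d := (BWs hc oS).down
  hio ρ c := by
    rcases ρ with m | ⟨a, a'⟩
    · refine (lift_eps hc oS _).trans ?_
      cases c
      · exact congrArg (· * _) ((BWs hc oS).ε_io (.ub m) false).symm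
      · exact congrArg (· * _) ((BWs hc oS).ε_io (.ub m) true).symm
    · have h : (sysW hc oS).lift ((sys M).al c a a') = (BC hc oS).io (.ab a a') c :=
        ((sysW hc oS).lift_gn (.al c a a')).trans (aZ_nz _ _ c a a')
      refine (congrArg (· * _) h).trans ?_
      exact (mul_assoc _ _ _).trans (congrArg (_ * ·) (dE hc oS _))
  hpr ρ c := by
    rcases ρ with m | ⟨a, a'⟩
    · refine (lift_eps hc oS _).trans ?_
      cases c
      · exact (congrArg (_ * ·) ((BWs hc oS).pr_ε (.ub m) false).symm).trans (mul_assoc _ _ _).symm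
      · exact (congrArg (_ * ·) ((BWs hc oS).pr_ε (.ub m) true).symm).trans (mul_assoc _ _ _).symm
    · have h : (sysW hc oS).lift ((sys M).pr c a a') = (BC hc oS).pr (.ab a a') c :=
        ((sysW hc oS).lift_gn (.pr c a a')).trans (aZ_nz _ _ c a a')
      refine (congrArg (· * _) h).trans ?_
      exact (mul_assoc _ _ _).trans (congrArg (_ * ·) (dE hc oS _))
  hε := lift_eps hc oS
  du := du hc oS
  Eu := Eu hc oS
  Ed := Ed hc oS
  su o v := by
    rcases o with _ | m | m
    · rfl
    · exact (sg_io (B := (sys M).blocks hc) (.ub m) true v).trans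
        (sg_E (B := (sys M).blocks hc) (.P m) v)
    · exact (sg_io (B := (sys M).blocks hc) (.ub m) false v).trans
        (sg_E (B := (sys M).blocks hc) (.Q m) v)
  sd o v := by
    rcases o with _ | m | m
    · exact (one_smul (UR M) _).symm
    · exact sg_pi (B := (sys M).blocks hc) (.ub m) true v
    · exact sg_pi (B := (sys M).blocks hc) (.ub m) false v

end Rep

end Pool.Agent.H104Z.Berg
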