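import Pool.Agent.H104Z.Berg.Sec

set_option autoImplicit false
set_option maxHeartbeats 400000
set_option linter.unusedSectionVars false

/-! The universal ring of a commutative monoid. -/

namespace Pool.Agent.H104Z.Berg

universe u

/-- Idempotents indexed by a monoid, with decompositions `e (a + c) = e a + e c` up to
equivalence. -/
structure Sys (M : Type u) [AddCommMonoid M] (A : Type*) [Ring A] where
  e : M → A
  al : Bool → M → M → A
  pr : Bool → M → M → A
  e_idem : ∀ m, e m * e m = e m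
  e_zero : e 0 = 0
  e_al : ∀ b a c, e (a + c) * al b a c = al b a c
  al_e : ∀ b a c, al b a c * e (cond b a c) = al b a c
  e_pr : ∀ b a c, e (cond b a c) * pr b a c = pr b a c
  pr_e : ∀ b a c, pr b a c * e (a + c) = pr b a c
  pr_al : ∀ b a c, pr b a c * al b a c = e (cond b a c)
  pr_al' : ∀ b a c, pr b a c * al (!b) a c = 0
  sum : ∀ a c, al true a c * pr true a c + al false a c * pr false a c = e (a + c)
  al_t : ∀ a, al true a 0 = e a
  pr_t : ∀ a, pr true a 0 = e a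
  al_f : ∀ c, al false 0 c = e c
  pr_f : ∀ c, pr false 0 c = e c

/-- The generators. -/
inductive Gn (M : Type u) : Type u
  | e (m : M)
  | al (b : Bool) (a c : M)
  | pr (b : Bool) (a c : M)

open FreeAlgebra in
/-- The relations. -/
inductive Rl (M : Type u) [AddCommMonoid M] : FreeAlgebra ℚ (Gn M) → FreeAlgebra ℚ (Gn M) → Prop
  | e_idem (m : M) : Rl M (ι ℚ (.e m) * ι ℚ (.e m)) (ι ℚ (.e m))
  | e_zero : Rl M (ι ℚ (.e 0)) 0
  | e_al (b : Bool) (a c : M) : Rl M (ι ℚ (.e (a + c)) * ι ℚ (.al b a c)) (ι ℚ (.al b a c))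
  | al_e (b : Bool) (a c : M) : Rl M (ι ℚ (.al b a c) * ι ℚ (.e (cond b a c))) (ι ℚ (.al b a c))
  | e_pr (b : Bool) (a c : M) : Rl M (ι ℚ (.e (cond b a c)) * ι ℚ (.pr b a c)) (ι ℚ (.pr b a c))
  | pr_e (b : Bool) (a c : M) : Rl M (ι ℚ (.pr b a c) * ι ℚ (.e (a + c))) (ι ℚ (.pr b a c))
  | pr_al (b : Bool) (a c : M) : Rl M (ι ℚ (.pr b a c) * ι ℚ (.al b a c)) (ι ℚ (.e (cond b a c)))
  | pr_al' (b : Bool) (a c : M) : Rl M (ι ℚ (.pr b a c) * ι ℚ (.al (!b) a c)) 0
  | sum (a c : M) : Rl M (ι ℚ (.al true a c) * ι ℚ (.pr true a c) +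
      ι ℚ (.al false a c) * ι ℚ (.pr false a c)) (ι ℚ (.e (a + c)))
  | al_t (a : M) : Rl M (ι ℚ (.al true a 0)) (ι ℚ (.e a))
  | pr_t (a : M) : Rl M (ι ℚ (.pr true a 0)) (ι ℚ (.e a))
  | al_f (c : M) : Rl M (ι ℚ (.al false 0 c)) (ι ℚ (.e c))
  | pr_f (c : M) : Rl M (ι ℚ (.pr false 0 c)) (ι ℚ (.e c))

/-- The universal ring. -/
abbrev UR (M : Type u) [AddCommMonoid M] : Type u := RingQuot (Rl M)

variable {M N : Type u} [AddCommMonoid M] [AddCommMonoid N] {A : Type*} [Ring A]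

/-- The image of a generator. -/
noncomputable def gn (g : Gn M) : UR M := RingQuot.mkAlgHom ℚ (Rl M) (FreeAlgebra.ι ℚ g)

/-- The universal system. -/
noncomputable def sys (M : Type u) [AddCommMonoid M] : Sys M (UR M) where
  e m := gn (.e m)
  al b a c := gn (.al b a c)
  pr b a c := gn (.pr b a c)
  e_idem m := by simpa only [gn, map_mul] using RingQuot.mkAlgHom_rel ℚ (Rl.e_idem m)
  e_zero := by simpa only [gn, map_zero] using RingQuot.mkAlgHom_rel ℚ (Rl.e_zero (M := M))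
  e_al b a c := by simpa only [gn, map_mul] using RingQuot.mkAlgHom_rel ℚ (Rl.e_al b a c)
  al_e b a c := by simpa only [gn, map_mul] using RingQuot.mkAlgHom_rel ℚ (Rl.al_e b a c)
  e_pr b a c := by simpa only [gn, map_mul] using RingQuot.mkAlgHom_rel ℚ (Rl.e_pr b a c)
  pr_e b a c := by simpa only [gn, map_mul] using RingQuot.mkAlgHom_rel ℚ (Rl.pr_e b a c)
  pr_al b a c := by simpa only [gn, map_mul] using RingQuot.mkAlgHom_rel ℚ (Rl.pr_al b a c)
  pr_al' b a c := by simpa only [gn, map_mul, map_zero] using RingQuot.mkAlgHom_rel ℚ (Rl.pr_al' b a c)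
  sum a c := by simpa only [gn, map_mul, map_add] using RingQuot.mkAlgHom_rel ℚ (Rl.sum a c)
  al_t a := RingQuot.mkAlgHom_rel ℚ (Rl.al_t a)
  pr_t a := RingQuot.mkAlgHom_rel ℚ (Rl.pr_t a)
  al_f a := RingQuot.mkAlgHom_rel ℚ (Rl.al_f a)
  pr_f a := RingQuot.mkAlgHom_rel ℚ (Rl.pr_f a)

/-- The value of a system on a generator. -/
def Sys.val (T : Sys M A) : Gn M → A
  | .e m => T.e m
  | .al b a c => T.al b a c
  | .pr b a c => T.pr b a c

/-- The universal property. -/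
noncomputable def Sys.lift [Algebra ℚ A] (T : Sys M A) : UR M →ₐ[ℚ] A :=
  RingQuot.liftAlgHom ℚ ⟨FreeAlgebra.lift ℚ T.val, by
    intro x y h
    cases h <;> simp only [map_mul, map_add, map_zero, FreeAlgebra.lift_ι_apply, Sys.val]
    exacts [T.e_idem _, T.e_zero, T.e_al .., T.al_e .., T.e_pr .., T.pr_e .., T.pr_al ..,
      T.pr_al' .., T.sum .., T.al_t _, T.pr_t _, T.al_f _, T.pr_f _]⟩

theorem Sys.lift_gn [Algebra ℚ A] (T : Sys M A) (g : Gn M) : T.lift (gn g) = T.val g := by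
  unfold Sys.lift gn
  rw [RingQuot.liftAlgHom_mkAlgHom_apply, FreeAlgebra.lift_ι_apply]

theorem UR.mem_of_gn (Q : Subalgebra ℚ (UR M)) (h : ∀ g, gn g ∈ Q) (r : UR M) : r ∈ Q := by
  obtain ⟨x, rfl⟩ := RingQuot.mkAlgHom_surjective ℚ (Rl M) r
  induction x using FreeAlgebra.induction with
  | grade0 c => rw [AlgHom.commutes]; exact Q.algebraMap_mem c
  | grade1 g => exact h g
  | mul x y hx hy => rw [map_mul]; exact Q.mul_mem hx hy
  | add x y hx hy => rw [map_add]; exact Q.add_mem hx hy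

theorem UR.hom_ext [Algebra ℚ A] {f g : UR M →ₐ[ℚ] A} (h : ∀ x, f (gn x) = g (gn x)) : f = g :=
  AlgHom.ext (fun r => UR.mem_of_gn (AlgHom.equalizer f g) h r)

/-- Pull back of a system along a monoid homomorphism. -/
def Sys.comap (T : Sys N A) (f : M →+ N) : Sys M A where
  e m := T.e (f m)
  al b a c := T.al b (f a) (f c)
  pr b a c := T.pr b (f a) (f c)
  e_idem _ := T.e_idem _
  e_zero := by rw [map_zero, T.e_zero]
  e_al b a c := by rw [map_add, T.e_al]
  al_e b a c := by rw [Bool.apply_cond f, T.al_e]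
  e_pr b a c := by rw [Bool.apply_cond f, T.e_pr]
  pr_e b a c := by rw [map_add, T.pr_e]
  pr_al b a c := by rw [Bool.apply_cond f, T.pr_al]
  pr_al' b a c := T.pr_al' ..
  sum a c := by rw [map_add, T.sum]
  al_t a := by rw [map_zero, T.al_t]
  pr_t a := by rw [map_zero, T.pr_t]
  al_f a := by rw [map_zero, T.al_f]
  pr_f a := by rw [map_zero, T.pr_f]

/-- The zero system. -/
def Sys.zero (M : Type u) [AddCommMonoid M] : Sys M ℚ where
  e _ := 0
  al _ _ _ := 0
  pr _ _ _ := 0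
  e_idem := by simp
  e_zero := rfl
  e_al := by simp
  al_e := by simp
  e_pr := by simp
  pr_e := by simp
  pr_al := by simp
  pr_al' := by simp
  sum := by simp
  al_t := by simp
  pr_t := by simp
  al_f := by simp
  pr_f := by simp

/-- The augmentation. -/
noncomputable def chi (M : Type u) [AddCommMonoid M] : UR M →ₐ[ℚ] ℚ := (Sys.zero M).lift

theorem chi_gn (g : Gn M) : chi M (gn g) = 0 := by
  rw [chi, Sys.lift_gn]
  cases g <;> rfl

/-- The ring homomorphism induced by a monoid homomorphism. -/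
noncomputable def Rmap (f : M →+ N) : UR M →ₐ[ℚ] UR N := ((sys N).comap f).lift

/-- The action of a map on generators. -/
def Gn.map (f : M → N) : Gn M → Gn N
  | .e m => .e (f m)
  | .al b a c => .al b (f a) (f c)
  | .pr b a c => .pr b (f a) (f c)

theorem Rmap_gn (f : M →+ N) (g : Gn M) : Rmap f (gn g) = gn (g.map f) := by
  rw [Rmap, Sys.lift_gn]
  cases g <;> rfl

theorem Rmap_id : Rmap (AddMonoidHom.id M) = AlgHom.id ℚ _ :=
  UR.hom_ext fun g => by
    rw [Rmap_gn]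
    cases g <;> rfl

theorem Rmap_comp {L : Type u} [AddCommMonoid L] (f : M →+ N) (g : N →+ L) :
    Rmap (g.comp f) = (Rmap g).comp (Rmap f) :=
  UR.hom_ext fun x => by
    rw [AlgHom.comp_apply, Rmap_gn, Rmap_gn, Rmap_gn]
    cases x <;> rfl

theorem chi_Rmap (f : M →+ N) (r : UR M) : chi N (Rmap f r) = chi M r := by
  have : (chi N).comp (Rmap f) = chi M := UR.hom_ext fun x => by
    rw [AlgHom.comp_apply, Rmap_gn, chi_gn, chi_gn]
  exact AlgHom.congr_fun this r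

/-- The objects. -/
inductive Ob (M : Type u) [AddCommMonoid M] : Type u
  | U
  | P (m : {m : M // m ≠ 0})
  | Q (m : {m : M // m ≠ 0})

/-- The blocks. -/
inductive Bl (M : Type u) [AddCommMonoid M] : Type u
  | ub (m : {m : M // m ≠ 0})
  | ab (a c : {m : M // m ≠ 0})

/-- The idempotent of an object. -/
def Sys.eps (T : Sys M A) : Ob M → A
  | .U => 1
  | .P m => T.e m
  | .Q m => 1 - T.e m

/-- The leaves of a block. -/
def Bl.L : Bl M → Bool → Ob M
  | .ub m, b => cond b (.P m) (.Q m)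
  | .ab a c, b => .P (cond b a c)

/-- The centre of a block. -/
def Bl.X (hc : ∀ x y : M, x + y = 0 → x = 0 ∧ y = 0) : Bl M → Ob M
  | .ub _ => .U
  | .ab a c => .P ⟨a + c, fun h => a.2 (hc _ _ h).1⟩

theorem coe_cond (b : Bool) (a c : {m : M // m ≠ 0}) : (cond b a c).1 = cond b a.1 c.1 := by
  cases b <;> rfl

theorem Sys.eps_idem (T : Sys M A) (o : Ob M) : T.eps o * T.eps o = T.eps o := by
  cases o <;> simp [Sys.eps, T.e_idem, mul_sub, sub_mul]

/-- The blocks of a system. -/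
def Sys.blocks (T : Sys M A) (hc : ∀ x y : M, x + y = 0 → x = 0 ∧ y = 0) :
    Blocks A (Ob M) (Bl M) where
  X := Bl.X hc
  L := Bl.L
  ε := T.eps
  io ρ b := match ρ with
    | .ub m => T.eps (Bl.L (.ub m) b)
    | .ab a c => T.al b a c
  pr ρ b := match ρ with
    | .ub m => T.eps (Bl.L (.ub m) b)
    | .ab a c => T.pr b a c
  ε_idem := T.eps_idem
  ε_io ρ b := by
    cases ρ
    · exact one_mul _
    · exact T.e_al ..
  io_ε ρ b := by
    cases ρ
    · exact T.eps_idem _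
    · simp only [Bl.L, Sys.eps, coe_cond, T.al_e]
  ε_pr ρ b := by
    cases ρ
    · exact T.eps_idem _
    · simp only [Bl.L, Sys.eps, coe_cond, T.e_pr]
  pr_ε ρ b := by
    cases ρ
    · exact mul_one _
    · exact T.pr_e ..
  pr_io ρ b := by
    cases ρ
    · exact T.eps_idem _
    · simp only [Bl.L, Sys.eps, coe_cond, T.pr_al]
  pr_io' ρ b := by
    cases ρ
    · cases b <;> simp [Bl.L, Sys.eps, T.e_idem, mul_sub, sub_mul]
    · exact T.pr_al' ..
  sum ρ := by
    cases ρ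
    · simp [Bl.L, Bl.X, Sys.eps, T.e_idem, mul_sub, sub_mul]
    · exact T.sum ..

theorem Sys.al_deg (T : Sys M A) (b : Bool) {a c : M} (h : ¬ (a ≠ 0 ∧ c ≠ 0)) :
    T.al b a c = T.e (cond b a c) ∧ T.pr b a c = T.e (cond b a c) := by
  have h0 : cond b a c = 0 → T.al b a c = T.e (cond b a c) ∧ T.pr b a c = T.e (cond b a c) := by
    intro e
    rw [← T.al_e, ← T.e_pr, e, T.e_zero]
    simp
  by_cases ha : a = 0
  · subst ha
    cases b
    · exact ⟨T.al_f c, T.pr_f c⟩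
    · exact h0 rfl
  · obtain rfl : c = 0 := by tauto
    cases b
    · exact h0 rfl
    · exact ⟨T.al_t a, T.pr_t a⟩

theorem gen_sys (hc : ∀ x y : M, x + y = 0 → x = 0 ∧ y = 0) :
    Gen ℚ ((sys M).blocks hc) .U where
  one := rfl
  toU o := by
    rcases o with _ | m | m
    · exact Or.inl rfl
    · exact Or.inr ⟨.ub m, true, rfl, rfl, rfl, rfl⟩
    · exact Or.inr ⟨.ub m, false, rfl, rfl, rfl, rfl⟩
  gen := by
    refine top_unique (fun r _ => UR.mem_of_gn _ (fun g => ?_) r)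
    have he : ∀ m, (sys M).e m ∈ Algebra.adjoin ℚ {r | ∃ ρ c, r = ((sys M).blocks hc).io ρ c ∨
        r = ((sys M).blocks hc).pr ρ c} := by
      intro m
      by_cases h : m = 0
      · rw [h, Sys.e_zero]
        exact zero_mem _
      · exact Algebra.subset_adjoin ⟨.ub ⟨m, h⟩, true, Or.inl rfl⟩
    rcases g with m | ⟨b, a, c⟩ | ⟨b, a, c⟩
    · exact he m
    · by_cases h : a ≠ 0 ∧ c ≠ 0
      · exact Algebra.subset_adjoin ⟨.ab ⟨a, h.1⟩ ⟨c, h.2⟩, b, Or.inl rfl⟩
      · change (sys M).al b a c ∈ _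
        rw [((sys M).al_deg b h).1]
        exact he _
    · by_cases h : a ≠ 0 ∧ c ≠ 0
      · exact Algebra.subset_adjoin ⟨.ab ⟨a, h.1⟩ ⟨c, h.2⟩, b, Or.inr rfl⟩
      · change (sys M).pr b a c ∈ _
        rw [((sys M).al_deg b h).2]
        exact he _

/-- Transport of blocks along equivalences of idempotents. -/
def Blocks.conj {I Λ : Type*} (B : Blocks A I Λ) (u d : I → A) (du : ∀ o, d o * u o = B.ε o)
    (uE : ∀ o, u o * B.ε o = u o) (Ed : ∀ o, B.ε o * d o = d o) : Blocks A I Λ where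
  X := B.X
  L := B.L
  ε o := u o * d o
  io ρ c := u (B.X ρ) * B.io ρ c * d (B.L ρ c)
  pr ρ c := u (B.L ρ c) * B.pr ρ c * d (B.X ρ)
  ε_idem o := by rw [mul_assoc, ← mul_assoc (d o), du, Ed]
  ε_io ρ c := by rw [← mul_assoc, ← mul_assoc, mul_assoc (u _) (d _), du, uE]
  io_ε ρ c := by rw [mul_assoc, ← mul_assoc (d _), du, Ed]
  ε_pr ρ c := by rw [← mul_assoc, ← mul_assoc, mul_assoc (u _) (d _), du, uE]
  pr_ε ρ c := by rw [mul_assoc, ← mul_assoc (d _), du, Ed]
  pr_io ρ c := by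
    rw [mul_assoc, ← mul_assoc (d _), ← mul_assoc (d _), du, B.ε_io, ← mul_assoc,
      mul_assoc (u _), B.pr_io, uE]
  pr_io' ρ c := by
    rw [mul_assoc, ← mul_assoc (d _), ← mul_assoc (d _), du, B.ε_io, ← mul_assoc,
      mul_assoc (u _), B.pr_io', mul_zero, zero_mul]
  sum ρ := by
    have h : ∀ c, u (B.X ρ) * B.io ρ c * d (B.L ρ c) * (u (B.L ρ c) * B.pr ρ c * d (B.X ρ)) =
        u (B.X ρ) * (B.io ρ c * B.pr ρ c) * d (B.X ρ) := fun c => by
      rw [mul_assoc, ← mul_assoc (d _), ← mul_assoc (d _), du, B.ε_pr, ← mul_assoc,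
        mul_assoc (u _)]
    rw [h, h, ← add_mul, ← mul_add, B.sum, uE]

open Classical in
/-- Extension by zero. -/
noncomputable def eZ (ε : Ob M → A) (m : M) : A := if h : m = 0 then 0 else ε (.P ⟨m, h⟩)

theorem eZ_zero (ε : Ob M → A) : eZ ε 0 = 0 := dif_pos rfl

theorem eZ_nz (ε : Ob M → A) (m : {m : M // m ≠ 0}) : eZ ε m = ε (.P m) := dif_neg m.2

open Classical in
/-- Extension to the degenerate cases. -/
noncomputable def aZ (ε : Ob M → A) (g : Bl M → Bool → A) (b : Bool) (a c : M) : A :=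
  if h : a ≠ 0 ∧ c ≠ 0 then g (.ab ⟨a, h.1⟩ ⟨c, h.2⟩) b else eZ ε (cond b a c)

theorem aZ_nz (ε : Ob M → A) (g : Bl M → Bool → A) (b : Bool) (a c : {m : M // m ≠ 0}) :
    aZ ε g b a c = g (.ab a c) b := dif_pos ⟨a.2, c.2⟩

theorem aZ_l (ε : Ob M → A) (g : Bl M → Bool → A) (b : Bool) (c : M) :
    aZ ε g b 0 c = eZ ε (cond b 0 c) := dif_neg (by simp)

theorem aZ_r (ε : Ob M → A) (g : Bl M → Bool → A) (b : Bool) (a : M) :
    aZ ε g b a 0 = eZ ε (cond b a 0) := dif_neg (by simp)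

theorem tri {p : M → M → Prop} (h1 : ∀ c, p 0 c) (h2 : ∀ a, p a 0)
    (h3 : ∀ a c : {m : M // m ≠ 0}, p a c) (a c : M) : p a c := by
  by_cases ha : a = 0
  · exact ha ▸ h1 c
  · by_cases hc : c = 0
    · exact hc ▸ h2 a
    · exact h3 ⟨a, ha⟩ ⟨c, hc⟩

theorem Blocks.eZ_idem (B : Blocks A (Ob M) (Bl M)) (m : M) : eZ B.ε m * eZ B.ε m = eZ B.ε m := by
  by_cases h : m = 0
  · rw [h, eZ_zero, mul_zero]
  · have := eZ_nz B.ε ⟨m, h⟩
    rw [this, B.ε_idem]

/-- The system given by blocks. -/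
noncomputable def Blocks.sys (B : Blocks A (Ob M) (Bl M))
    (hX : ∀ a c : {m : M // m ≠ 0}, eZ B.ε (a + c : M) = B.ε (B.X (.ab a c)))
    (hL : ∀ (b : Bool) (a c : {m : M // m ≠ 0}),
      eZ B.ε (cond b a c : M) = B.ε (B.L (.ab a c) b)) : Sys M A where
  e := eZ B.ε
  al := aZ B.ε B.io
  pr := aZ B.ε B.pr
  e_idem := B.eZ_idem
  e_zero := eZ_zero _
  e_al b := tri (fun c => by cases b <;> simp [aZ_l, eZ_zero, B.eZ_idem])
    (fun c => by cases b <;> simp [aZ_r, eZ_zero, B.eZ_idem])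
    (fun a c => by rw [aZ_nz, hX, B.ε_io])
  al_e b := tri (fun c => by cases b <;> simp [aZ_l, eZ_zero, B.eZ_idem])
    (fun c => by cases b <;> simp [aZ_r, eZ_zero, B.eZ_idem])
    (fun a c => by rw [aZ_nz, hL, B.io_ε])
  e_pr b := tri (fun c => by cases b <;> simp [aZ_l, eZ_zero, B.eZ_idem])
    (fun c => by cases b <;> simp [aZ_r, eZ_zero, B.eZ_idem])
    (fun a c => by rw [aZ_nz, hL, B.ε_pr])
  pr_e b := tri (fun c => by cases b <;> simp [aZ_l, eZ_zero, B.eZ_idem])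
    (fun c => by cases b <;> simp [aZ_r, eZ_zero, B.eZ_idem])
    (fun a c => by rw [aZ_nz, hX, B.pr_ε])
  pr_al b := tri (fun c => by cases b <;> simp [aZ_l, eZ_zero, B.eZ_idem])
    (fun c => by cases b <;> simp [aZ_r, eZ_zero, B.eZ_idem])
    (fun a c => by rw [aZ_nz, aZ_nz, hL, B.pr_io])
  pr_al' b := tri (fun c => by cases b <;> simp [aZ_l, eZ_zero])
    (fun c => by cases b <;> simp [aZ_r, eZ_zero])
    (fun a c => by rw [aZ_nz, aZ_nz, B.pr_io'])
  sum := tri (fun c => by simp [aZ_l, eZ_zero, B.eZ_idem])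
    (fun c => by simp [aZ_r, eZ_zero, B.eZ_idem])
    (fun a c => by rw [aZ_nz, aZ_nz, aZ_nz, aZ_nz, hX, B.sum])
  al_t a := aZ_r ..
  pr_t a := aZ_r ..
  al_f a := aZ_l ..
  pr_f a := aZ_l ..

end Pool.Agent.H104Z.Berg
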