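import Pool.Agent.H104Z.Berg.Words

set_option autoImplicit false
set_option linter.unusedSectionVars false

/-! Transfer of the length filtrations from words to free modules. -/

namespace Pool.Agent.H104Z.Berg

open Finsupp Word

variable {K A I Λ S : Type*} [Field K] [Ring A] [Algebra K A] [Fintype S] [DecidableEq S]

/-- The ring element of a letter. -/
def Blocks.letter (B : Blocks A I Λ) (ρ : Λ) : Kind → A
  | .pi b => B.pr ρ b
  | .io b => B.io ρ b
  | .tau => B.io ρ true * B.pr ρ true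

/-- The element of the free module given by a word. -/
def sig (B : Blocks A I Λ) (oS : S → I) : Word S Λ → S → A
  | .nil s => Pi.single s (B.ε (oS s))
  | .cons ρ k w => B.letter ρ k • sig B oS w

/-- Evaluation of linear combinations of words. -/
noncomputable def sg (K : Type*) [Field K] [Algebra K A] (B : Blocks A I Λ) (oS : S → I) :
    (Word S Λ →₀ K) →ₗ[K] S → A := linearCombination K (sig B oS)

variable {B : Blocks A I Λ} {oS : S → I}

theorem sg_single (w : Word S Λ) : sg K B oS (single w 1) = sig B oS w := by simp [sg]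

theorem sig_typ {o : I} {w : Word S Λ} (h : At B oS o w) : B.ε o • sig B oS w = sig B oS w := by
  obtain ⟨-, rfl⟩ := h
  rcases w with s | ⟨ρ, k, w⟩
  · funext t
    by_cases e : t = s
    · simp [sig, eo, e, B.ε_idem]
    · simp [sig, Pi.single_eq_of_ne e]
  · rw [sig, ← mul_smul]
    congr 1
    rcases k with b | b | _
    · exact B.ε_pr ρ b
    · exact B.ε_io ρ b
    · change B.ε (B.X ρ) * (_ * _) = _
      rw [← mul_assoc, B.ε_io]
      rfl

theorem sg_E (o : I) (v : Word S Λ →₀ K) :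
    B.ε o • sg K B oS (E K B oS o v) = sg K B oS (E K B oS o v) := by
  have : act K (B.ε o) ∘ₗ sg K B oS ∘ₗ E K B oS o = sg K B oS ∘ₗ E K B oS o := lin_ext fun w => by
    change B.ε o • sg K B oS (E K B oS o _) = sg K B oS (E K B oS o _)
    by_cases h : At B oS o w
    · rw [E_pos h, sg_single, sig_typ h]
    · rw [E_neg h, map_zero, smul_zero]
  exact LinearMap.congr_fun this v

theorem sg_pi (ρ : Λ) (b : Bool) (v : Word S Λ →₀ K) :
    sg K B oS (Pi' K B oS ρ b v) = B.pr ρ b • sg K B oS (E K B oS (B.X ρ) v) := by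
  have : sg K B oS ∘ₗ Pi' K B oS ρ b = act K (B.pr ρ b) ∘ₗ sg K B oS ∘ₗ E K B oS (B.X ρ) :=
    lin_ext fun w => by
      change sg K B oS (Pi' K B oS ρ b _) = B.pr ρ b • sg K B oS (E K B oS (B.X ρ) _)
      by_cases h : At B oS (B.X ρ) w
      · rw [E_pos h, sg_single]
        replace h := cases_center h
        rcases h with h | ⟨b', w, rfl, h⟩ | ⟨w, rfl, h⟩
        · rw [pi_free h, sg_single]
          rfl
        · rw [pi_io h, sig, ← mul_smul]
          split_ifs with e
          · subst e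
            rw [sg_single]
            exact (sig_typ (at_l h)).symm.trans (congrArg (· • _) (B.pr_io ρ b').symm)
          · obtain rfl : b' = !b := by cases b <;> cases b' <;> simp_all
            rw [map_zero]
            exact (zero_smul A _).symm.trans (congrArg (· • _) (B.pr_io' ρ b).symm)
        · rw [pi_tau h, sig, ← mul_smul]
          change _ = (B.pr ρ b * (B.io ρ true * B.pr ρ true)) • _
          cases b
          · have p2 : B.pr ρ false * B.io ρ true = 0 := B.pr_io' ρ false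
            rw [← mul_assoc, p2]
            simp
          · rw [← mul_assoc, B.pr_io, B.ε_pr, if_pos rfl, sg_single]
            rfl
      · rw [E_neg h, pi_neg h, map_zero, smul_zero]
  exact LinearMap.congr_fun this v

theorem sg_io (ρ : Λ) (b : Bool) (v : Word S Λ →₀ K) :
    sg K B oS (Io K B oS ρ b v) = B.io ρ b • sg K B oS (E K B oS (B.L ρ b) v) := by
  have : sg K B oS ∘ₗ Io K B oS ρ b = act K (B.io ρ b) ∘ₗ sg K B oS ∘ₗ E K B oS (B.L ρ b) :=
    lin_ext fun w => by
      change sg K B oS (Io K B oS ρ b _) = B.io ρ b • sg K B oS (E K B oS (B.L ρ b) _)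
      by_cases h : At B oS (B.L ρ b) w
      · rw [E_pos h, sg_single]
        replace h := cases_leaf h
        rcases h with h | ⟨w, rfl, h⟩
        · rw [io_free h, sg_single]
          rfl
        · rw [io_pi h, sig, ← mul_smul]
          change _ = (B.io ρ b * B.pr ρ b) • _
          cases b
          · rw [if_neg (by simp), map_sub, sg_single, sg_single, sig, sub_eq_iff_eq_add, ← add_smul,
              add_comm]
            exact (sig_typ (at_c h)).symm.trans (congrArg (· • _) (B.sum ρ).symm)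
          · rw [if_pos rfl, sg_single]
            rfl
      · rw [E_neg h, io_neg h, map_zero, smul_zero]
  exact LinearMap.congr_fun this v

/-- A representation of the ring on the module of words, compatible with the blocks. -/
structure WRep (K : Type*) [Field K] [Algebra K A] (B : Blocks A I Λ) (oS : S → I) (U : I) where
  Θ : A →ₐ[K] Module.End K (Word S Λ →₀ K)
  u : I → Module.End K (Word S Λ →₀ K)
  d : I → Module.End K (Word S Λ →₀ K)
  hio : ∀ ρ c, Θ (B.io ρ c) * E K B oS U = u (B.X ρ) * Io K B oS ρ c * d (B.L ρ c)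
  hpr : ∀ ρ c, Θ (B.pr ρ c) * E K B oS U = u (B.L ρ c) * Pi' K B oS ρ c * d (B.X ρ)
  hε : ∀ o, Θ (B.ε o) * E K B oS U = u o * d o
  du : ∀ o, d o * u o = E K B oS o
  Eu : ∀ o, E K B oS U * u o = u o
  Ed : ∀ o, E K B oS o * d o = d o
  su : ∀ o v, sg K B oS (u o v) = sg K B oS (E K B oS o v)
  sd : ∀ o v, sg K B oS (d o v) = B.ε o • sg K B oS (E K B oS U v)

namespace WRep

variable {U : I} (T : WRep K B oS U)

theorem Θ_compat (hU : Gen K B U) (r : A) : ∀ w, E K B oS U w = w →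
    E K B oS U (T.Θ r w) = T.Θ r w ∧ sg K B oS (T.Θ r w) = r • sg K B oS w := by
  have hr : r ∈ Algebra.adjoin K {r | ∃ ρ c, r = B.io ρ c ∨ r = B.pr ρ c} := by
    rw [hU.gen]
    trivial
  have hEd : ∀ o w, E K B oS o (T.d o w) = T.d o w := fun o w => LinearMap.congr_fun (T.Ed o) w
  have hEu : ∀ o w, E K B oS U (T.u o w) = T.u o w := fun o w => LinearMap.congr_fun (T.Eu o) w
  induction hr using Algebra.adjoin_induction with
  | mem r hr =>
    intro w hw
    obtain ⟨ρ, c, rfl | rfl⟩ := hr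
    · have h1 : T.Θ (B.io ρ c) (E K B oS U w) = T.u (B.X ρ) (Io K B oS ρ c (T.d (B.L ρ c) w)) :=
        LinearMap.congr_fun (T.hio ρ c) w
      have h2 : ∀ v, E K B oS (B.X ρ) (Io K B oS ρ c v) = Io K B oS ρ c v :=
        LinearMap.congr_fun ((BW K B oS).ε_io ρ c)
      rw [hw] at h1
      rw [h1, hEu, T.su, h2, sg_io, hEd, T.sd, hw, ← mul_smul, B.io_ε]
      exact ⟨rfl, rfl⟩
    · have h1 : T.Θ (B.pr ρ c) (E K B oS U w) = T.u (B.L ρ c) (Pi' K B oS ρ c (T.d (B.X ρ) w)) :=
        LinearMap.congr_fun (T.hpr ρ c) w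
      have h2 : ∀ v, E K B oS (B.L ρ c) (Pi' K B oS ρ c v) = Pi' K B oS ρ c v :=
        LinearMap.congr_fun ((BW K B oS).ε_pr ρ c)
      rw [hw] at h1
      rw [h1, hEu, T.su, h2, sg_pi, hEd, T.sd, hw, ← mul_smul, B.pr_ε]
      exact ⟨rfl, rfl⟩
  | algebraMap c =>
    intro w hw
    rw [AlgHom.commutes, Module.algebraMap_end_apply, map_smul, map_smul, hw, algebraMap_smul]
    exact ⟨rfl, rfl⟩
  | add x y _ _ hx hy =>
    intro w hw
    rw [map_add, LinearMap.add_apply, map_add, map_add, (hx w hw).1, (hy w hw).1, (hx w hw).2,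
      (hy w hw).2, add_smul]
    exact ⟨rfl, rfl⟩
  | mul x y _ _ hx hy =>
    intro w hw
    rw [map_mul, Module.End.mul_apply, (hx _ (hy w hw).1).1, (hx _ (hy w hw).1).2, (hy w hw).2,
      mul_smul]
    exact ⟨rfl, rfl⟩

/-- The normal form of an element of the free module. -/
noncomputable def φ : (S → A) →ₗ[K] (Word S Λ →₀ K) where
  toFun v := ∑ s, T.Θ (v s) (T.u (oS s) (single (.nil s) 1))
  map_add' v w := by simp [Finset.sum_add_distrib]
  map_smul' c v := by simp [Finset.smul_sum]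

theorem φ_apply (v : S → A) : T.φ v = ∑ s, T.Θ (v s) (T.u (oS s) (single (.nil s) 1)) := rfl

theorem φ_smul (r : A) (v : S → A) : T.φ (r • v) = T.Θ r (T.φ v) := by
  simp [φ_apply, map_sum]

theorem E_φ (hU : Gen K B U) (v : S → A) : E K B oS U (T.φ v) = T.φ v := by
  rw [φ_apply, map_sum]
  exact Finset.sum_congr rfl (fun s _ =>
    (T.Θ_compat hU _ _ (LinearMap.congr_fun (T.Eu _) _)).1)

theorem at_nil (s : S) : At B oS (oS s) (.nil s : Word S Λ) := ⟨trivial, rfl⟩

theorem sg_φ (hU : Gen K B U) {v : S → A} (hv : ∀ s, v s * B.ε (oS s) = v s) :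
    sg K B oS (T.φ v) = v := by
  rw [φ_apply, map_sum]
  rw [Finset.sum_congr rfl (fun s _ => (T.Θ_compat hU (v s) _
    (LinearMap.congr_fun (T.Eu _) _)).2)]
  funext t
  rw [Finset.sum_apply, Finset.sum_eq_single t]
  · rw [T.su, E_pos (at_nil t), sg_single]
    simp [sig, hv]
  · intro s _ hs
    rw [T.su, E_pos (at_nil s), sg_single]
    simp [sig, Pi.single_eq_of_ne hs.symm]
  · simp

theorem d_pr (hU : Gen K B U) (ρ : Λ) (c : Bool) (v : S → A) :
    T.d (B.L ρ c) (T.φ (B.pr ρ c • v)) = Pi' K B oS ρ c (T.d (B.X ρ) (T.φ v)) := by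
  have h1 : T.Θ (B.pr ρ c) (E K B oS U (T.φ v)) =
      T.u (B.L ρ c) (Pi' K B oS ρ c (T.d (B.X ρ) (T.φ v))) := LinearMap.congr_fun (T.hpr ρ c) _
  rw [T.E_φ hU] at h1
  rw [φ_smul, h1]
  exact (LinearMap.congr_fun (T.du _) _).trans (LinearMap.congr_fun ((BW K B oS).ε_pr ρ c) _)

theorem d_io (hU : Gen K B U) (ρ : Λ) (c : Bool) (v : S → A) :
    T.d (B.X ρ) (T.φ (B.io ρ c • v)) = Io K B oS ρ c (T.d (B.L ρ c) (T.φ v)) := by
  have h1 : T.Θ (B.io ρ c) (E K B oS U (T.φ v)) =
      T.u (B.X ρ) (Io K B oS ρ c (T.d (B.L ρ c) (T.φ v))) := LinearMap.congr_fun (T.hio ρ c) _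
  rw [T.E_φ hU] at h1
  rw [φ_smul, h1]
  exact (LinearMap.congr_fun (T.du _) _).trans (LinearMap.congr_fun ((BW K B oS).ε_io ρ c) _)

end WRep

/-- The vectors of the right type on both sides. -/
def Ty (K : Type*) [Field K] [Algebra K A] (B : Blocks A I Λ) (oS : S → I) (o : I) :
    Submodule K (S → A) where
  carrier := {v | B.ε o • v = v ∧ ∀ s, v s * B.ε (oS s) = v s}
  add_mem' := fun h h' => ⟨by rw [smul_add, h.1, h'.1], fun s => by
    rw [Pi.add_apply, add_mul, h.2, h'.2]⟩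
  zero_mem' := ⟨smul_zero _, fun _ => zero_mul _⟩
  smul_mem' := fun c v h => ⟨by rw [smul_comm, h.1], fun s => by
    rw [Pi.smul_apply, smul_mul_assoc, h.2]⟩

theorem Ty.smul {o o' : I} {r : A} (hr : B.ε o' * r = r) {v : S → A} (hv : v ∈ Ty K B oS o) :
    r • v ∈ Ty K B oS o' :=
  ⟨by rw [← mul_smul, hr], fun s => by rw [Pi.smul_apply, smul_eq_mul, mul_assoc, hv.2]⟩

namespace WRep

variable {U : I} (T : WRep K B oS U)

theorem sg_d (hU : Gen K B U) {o : I} {v : S → A} (hv : v ∈ Ty K B oS o) :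
    sg K B oS (T.d o (T.φ v)) = v := by
  rw [T.sd, T.E_φ hU, T.sg_φ hU hv.2, hv.1]

/-- The length filtrations of the free module. -/
noncomputable def filt (hU : Gen K B U) : Filt K B (S → A) where
  Fl n o := Ty K B oS o ⊓ ((FW K B oS).Fl n o).comap (T.d o ∘ₗ T.φ)
  FP n P := Ty K B oS (B.pobj P) ⊓ ((FW K B oS).FP n P).comap (T.d (B.pobj P) ∘ₗ T.φ)
  Oth n P := ((FW K B oS).Oth n P).comap (T.d (B.pobj P) ∘ₗ T.φ)
  typ n o v hv := hv.1.1
  zero o := by
    refine (Submodule.eq_bot_iff _).2 (fun v hv => ?_)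
    have h : T.d o (T.φ v) ∈ (FW K B oS).Fl 0 o := hv.2
    rw [Filt.zero, Submodule.mem_bot] at h
    rw [← T.sg_d hU hv.1, h, map_zero]
  zeroP P := by
    refine (Submodule.eq_bot_iff _).2 (fun v hv => ?_)
    have h : T.d _ (T.φ v) ∈ (FW K B oS).FP 0 P := hv.2
    rw [Filt.zeroP, Submodule.mem_bot] at h
    rw [← T.sg_d hU hv.1, h, map_zero]
  le1 n P := fun v hv => ⟨hv.1, (FW K B oS).le1 n P (by rw [BW_pobj]; exact hv.2)⟩
  le2 n P := fun v hv => ⟨hv.1, by
    have := (FW K B oS).le2 n P hv.2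
    rwa [BW_pobj] at this⟩
  mono n o := fun v hv => ⟨hv.1, (FW K B oS).mono n o hv.2⟩
  pr_FP n ρ b v hv := ⟨Ty.smul (B.ε_pr ρ b) hv.1, by
    change T.d (B.L ρ b) (T.φ _) ∈ (FW K B oS).FP _ _
    rw [T.d_pr hU]
    exact (FW K B oS).pr_FP n ρ b _ hv.2⟩
  io_FP n ρ b v hv := ⟨Ty.smul (B.ε_io ρ b) hv.1, by
    change T.d (B.X ρ) (T.φ _) ∈ (FW K B oS).FP _ _
    rw [T.d_io hU]
    exact (FW K B oS).io_FP n ρ b _ hv.2⟩
  f3 n ρ b v hv hp := ⟨hv.1, (FW K B oS).f3 n ρ b _ hv.2 (by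
    have h : T.d (B.L ρ b) (T.φ _) ∈ (FW K B oS).Fl _ _ := hp.2
    rw [T.d_pr hU] at h
    exact h)⟩
  oth1 n P := fun v hv => (FW K B oS).oth1 n P (by rw [BW_pobj]; exact hv.2)
  oth2 n P P' hne e := fun v hv => (FW K B oS).oth2 n P P' hne (by rw [BW_pobj, BW_pobj, e]) (by
    have h : T.d (B.pobj P') (T.φ v) ∈ (FW K B oS).FP _ _ := hv.2
    rw [e] at h
    exact h)
  oth3 n P v h1 h2 := ⟨h1.1, by
    have := (FW K B oS).oth3 n P _ h1.2 h2
    rwa [BW_pobj] at this⟩

theorem filt_exhaust (hU : Gen K B U) {o : I} {v : S → A} (hv : v ∈ Ty K B oS o) :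
    ∃ n, v ∈ (T.filt hU).Fl (n + 1) o := by
  obtain ⟨n, hn⟩ := FW_exhaust (B := B) (oS := oS) (T.d o (T.φ v)) o
  have e : E K B oS o (T.d o (T.φ v)) = T.d o (T.φ v) := LinearMap.congr_fun (T.Ed o) _
  rw [e] at hn
  exact ⟨n, hv, (FW K B oS).mono _ _ hn⟩

theorem filt_one (hU : Gen K B U) {o : I} {v : S → A} (hv : v ∈ (T.filt hU).Fl 1 o) (s : S) :
    ∃ c : K, v s = c • B.ε (oS s) := by
  have h : T.d o (T.φ v) ∈ (FW K B oS).Fl 1 o := hv.2
  have := map_supported (LinearMap.proj s ∘ₗ sg K B oS) (Q := Submodule.span K {B.ε (oS s)})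
    (fun w hw => by
      rcases w with t | ⟨ρ, k, w⟩
      · change sg K B oS _ s ∈ _
        rw [sg_single]
        by_cases e : s = t
        · subst e
          simp [sig]
        · simp [sig, Pi.single_eq_of_ne e]
      · have := hw.2
        simp [len] at this) h
  change sg K B oS _ s ∈ _ at this
  rw [T.sg_d hU hv.1] at this
  obtain ⟨c, hc⟩ := Submodule.mem_span_singleton.1 this
  exact ⟨c, hc.symm⟩

theorem d_φ_single (s : S) :
    T.d (oS s) (T.φ (Pi.single s (B.ε (oS s)))) = single (.nil s) 1 := by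
  rw [φ_apply, Finset.sum_eq_single s (fun t _ ht => by simp [Pi.single_eq_of_ne ht]) (by simp),
    Pi.single_eq_same]
  have h1 : ∀ w, T.Θ (B.ε (oS s)) (E K B oS U w) = T.u (oS s) (T.d (oS s) w) :=
    LinearMap.congr_fun (T.hε _)
  have h2 : ∀ w, T.d (oS s) (T.u (oS s) w) = E K B oS (oS s) w := LinearMap.congr_fun (T.du _)
  have h3 : ∀ w, E K B oS U (T.u (oS s) w) = T.u (oS s) w := LinearMap.congr_fun (T.Eu _)
  rw [← h3, h1, h2, h2, E_pos (at_nil s), E_pos (at_nil s)]

include T in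
theorem ε_ne (s : S) : B.ε (oS s) ≠ 0 := by
  intro h
  have := T.d_φ_single s
  rw [h, Pi.single_zero, map_zero, map_zero] at this
  exact one_ne_zero (single_eq_zero.1 this.symm)

theorem single_mem (hU : Gen K B U) (s : S) :
    Pi.single s (B.ε (oS s)) ∈ (T.filt hU).Fl 1 (oS s) := by
  refine ⟨⟨sig_typ (at_nil (Λ := Λ) s), fun t => ?_⟩, ?_⟩
  · by_cases e : t = s
    · simp [e, B.ε_idem]
    · simp [Pi.single_eq_of_ne e]
  · change T.d (oS s) (T.φ _) ∈ (FW K B oS).Fl _ _
    rw [T.d_φ_single]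
    exact single_mem_supported _ _ ⟨at_nil s, by simp [len]⟩

end WRep

end Pool.Agent.H104Z.Berg
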