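import Pool.Agent.H104Z.Berg.Irr

set_option autoImplicit false
set_option linter.unusedSectionVars false

/-! The module of reduced words. -/

namespace Pool.Agent.H104Z.Berg

open Finsupp

/-- The three kinds of letters of a block. -/
inductive Kind
  | pi (b : Bool)
  | io (b : Bool)
  | tau

/-- The port where a letter starts. -/
def Kind.st : Kind → Option Bool
  | .pi _ => none
  | .io b => some b
  | .tau => none

/-- The port where a letter ends. -/
def Kind.en : Kind → Option Bool
  | .pi b => some b
  | .io _ => none
  | .tau => none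

/-- Words: a starting symbol followed by letters. -/
inductive Word (S Λ : Type*)
  | nil (s : S)
  | cons (ρ : Λ) (k : Kind) (w : Word S Λ)

variable {K A I Λ S : Type*} [Field K] [Ring A] [Algebra K A]

namespace Word

/-- The length. -/
def len : Word S Λ → ℕ
  | nil _ => 0
  | cons _ _ w => len w + 1

/-- The last port. -/
def lp : Word S Λ → Option (Λ × Option Bool)
  | nil _ => none
  | cons ρ k _ => some (ρ, k.en)

variable (B : Blocks A I Λ) (oS : S → I)

/-- The last object. -/
def eo : Word S Λ → I
  | nil s => oS s
  | cons ρ k _ => B.pobj (ρ, k.en)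

/-- Reduced composable words. -/
def valid : Word S Λ → Prop
  | nil _ => True
  | cons ρ k w => valid w ∧ eo B oS w = B.pobj (ρ, k.st) ∧ lp w ≠ some (ρ, k.st)

/-- Reduced words ending at a given object. -/
def At (o : I) (w : Word S Λ) : Prop := valid B oS w ∧ eo B oS w = o

/-- Reduced words that can be continued by a letter starting at the given port. -/
def free (P : Λ × Option Bool) (w : Word S Λ) : Prop :=
  valid B oS w ∧ eo B oS w = B.pobj P ∧ lp w ≠ some P

variable {B oS}

theorem free.at {P : Λ × Option Bool} {w : Word S Λ} (h : free B oS P w) : At B oS (B.pobj P) w :=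
  ⟨h.1, h.2.1⟩

theorem free.cons {ρ : Λ} (k : Kind) {w : Word S Λ} (h : free B oS (ρ, k.st) w) :
    At B oS (B.pobj (ρ, k.en)) (cons ρ k w) := ⟨h, rfl⟩

theorem not_free (ρ : Λ) (k : Kind) (w : Word S Λ) : ¬ free B oS (ρ, k.en) (cons ρ k w) :=
  fun h => h.2.2 rfl

theorem cases_center {ρ : Λ} {w : Word S Λ} (h : At B oS (B.X ρ) w) :
    free B oS (ρ, none) w ∨ (∃ b w', w = cons ρ (.io b) w' ∧ free B oS (ρ, some b) w') ∨
      ∃ w', w = cons ρ .tau w' ∧ free B oS (ρ, none) w' := by
  by_cases hl : lp w = some (ρ, none)
  · right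
    rcases w with s | ⟨ρ', k, w'⟩
    · simp [lp] at hl
    · simp only [lp, Option.some.injEq, Prod.mk.injEq] at hl
      obtain ⟨rfl, hk⟩ := hl
      rcases k with b | b | _
      · simp [Kind.en] at hk
      · exact Or.inl ⟨b, w', rfl, h.1⟩
      · exact Or.inr ⟨w', rfl, h.1⟩
  · exact Or.inl ⟨h.1, h.2, hl⟩

theorem cases_leaf {ρ : Λ} {b : Bool} {w : Word S Λ} (h : At B oS (B.L ρ b) w) :
    free B oS (ρ, some b) w ∨ ∃ w', w = cons ρ (.pi b) w' ∧ free B oS (ρ, none) w' := by
  by_cases hl : lp w = some (ρ, some b)
  · right
    rcases w with s | ⟨ρ', k, w'⟩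
    · simp [lp] at hl
    · simp only [lp, Option.some.injEq, Prod.mk.injEq] at hl
      obtain ⟨rfl, hk⟩ := hl
      rcases k with b' | b' | _
      · obtain rfl : b' = b := by simpa [Kind.en] using hk
        exact ⟨w', rfl, h.1⟩
      · simp [Kind.en] at hk
      · simp [Kind.en] at hk
  · exact Or.inl ⟨h.1, h.2, hl⟩

variable (K B oS)

open Classical in
/-- The projection onto a leaf, on a word. -/
noncomputable def piW (ρ : Λ) (b : Bool) (w : Word S Λ) : Word S Λ →₀ K :=
  if At B oS (B.X ρ) w then
    if free B oS (ρ, none) w then single (cons ρ (.pi b) w) 1 else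
      match w with
      | cons _ (.io b') w' => if b' = b then single w' 1 else 0
      | cons _ .tau w' => if b = true then single (cons ρ (.pi true) w') 1 else 0
      | _ => 0
  else 0

open Classical in
/-- The inclusion of a leaf, on a word. -/
noncomputable def ioW (ρ : Λ) (b : Bool) (w : Word S Λ) : Word S Λ →₀ K :=
  if At B oS (B.L ρ b) w then
    if free B oS (ρ, some b) w then single (cons ρ (.io b) w) 1 else
      match w with
      | cons _ _ w' =>
        if b = true then single (cons ρ .tau w') 1 else single w' 1 - single (cons ρ .tau w') 1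
      | _ => 0
  else 0

open Classical in
/-- The idempotent of an object, on a word. -/
noncomputable def eW (o : I) (w : Word S Λ) : Word S Λ →₀ K :=
  if At B oS o w then single w 1 else 0

/-- The projection onto a leaf. -/
noncomputable def Pi' (ρ : Λ) (b : Bool) : Module.End K (Word S Λ →₀ K) :=
  linearCombination K (piW K B oS ρ b)

/-- The inclusion of a leaf. -/
noncomputable def Io (ρ : Λ) (b : Bool) : Module.End K (Word S Λ →₀ K) :=
  linearCombination K (ioW K B oS ρ b)

/-- The idempotent of an object. -/
noncomputable def E (o : I) : Module.End K (Word S Λ →₀ K) := linearCombination K (eW K B oS o)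

variable {K B oS} {ρ : Λ} {b b' : Bool} {w : Word S Λ} {o : I}

theorem E_pos (h : At B oS o w) : E K B oS o (single w 1) = single w 1 := by
  simp [E, eW, h]

theorem E_neg (h : ¬ At B oS o w) : E K B oS o (single w 1) = 0 := by
  simp [E, eW, h]

theorem pi_neg (h : ¬ At B oS (B.X ρ) w) : Pi' K B oS ρ b (single w 1) = 0 := by
  simp [Pi', piW, h]

theorem io_neg (h : ¬ At B oS (B.L ρ b) w) : Io K B oS ρ b (single w 1) = 0 := by
  simp [Io, ioW, h]

theorem pi_free (h : free B oS (ρ, none) w) :
    Pi' K B oS ρ b (single w 1) = single (cons ρ (.pi b) w) 1 := by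
  have h1 : At B oS (B.X ρ) w := h.at
  simp [Pi', piW, h, h1]

theorem io_free (h : free B oS (ρ, some b) w) :
    Io K B oS ρ b (single w 1) = single (cons ρ (.io b) w) 1 := by
  have h1 : At B oS (B.L ρ b) w := h.at
  simp [Io, ioW, h, h1]

theorem pi_io (h : free B oS (ρ, some b') w) :
    Pi' K B oS ρ b (single (cons ρ (.io b') w) 1) = if b' = b then single w 1 else 0 := by
  have h1 : At B oS (B.X ρ) (cons ρ (.io b') w) := free.cons (.io b') h
  have h2 : ¬ free B oS (ρ, none) (cons ρ (.io b') w) := not_free ρ (.io b') w
  simp [Pi', piW, h1, h2]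

theorem pi_tau (h : free B oS (ρ, none) w) :
    Pi' K B oS ρ b (single (cons ρ .tau w) 1) =
      if b = true then single (cons ρ (.pi true) w) 1 else 0 := by
  have h1 : At B oS (B.X ρ) (cons ρ .tau w) := free.cons .tau h
  have h2 : ¬ free B oS (ρ, none) (cons ρ .tau w) := not_free ρ .tau w
  simp [Pi', piW, h1, h2]

theorem io_pi (h : free B oS (ρ, none) w) :
    Io K B oS ρ b (single (cons ρ (.pi b) w) 1) =
      if b = true then single (cons ρ .tau w) 1 else single w 1 - single (cons ρ .tau w) 1 := by
  have h1 : At B oS (B.L ρ b) (cons ρ (.pi b) w) := free.cons (.pi b) h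
  have h2 : ¬ free B oS (ρ, some b) (cons ρ (.pi b) w) := not_free ρ (.pi b) w
  simp [Io, ioW, h1, h2]

theorem lin_ext {V : Type*} [AddCommGroup V] [Module K V] {f g : (Word S Λ →₀ K) →ₗ[K] V}
    (h : ∀ w, f (single w 1) = g (single w 1)) : f = g := by
  ext w : 2
  exact h w

theorem at_pi (h : free B oS (ρ, none) w) : At B oS (B.L ρ b) (cons ρ (.pi b) w) :=
  free.cons (.pi b) h

theorem at_io (h : free B oS (ρ, some b) w) : At B oS (B.X ρ) (cons ρ (.io b) w) :=
  free.cons (.io b) h

theorem at_tau (h : free B oS (ρ, none) w) : At B oS (B.X ρ) (cons ρ .tau w) := free.cons .tau h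

theorem at_c (h : free B oS (ρ, none) w) : At B oS (B.X ρ) w := h.at

theorem at_l (h : free B oS (ρ, some b) w) : At B oS (B.L ρ b) w := h.at

variable (K B oS)

/-- The blocks act on the module of words. -/
noncomputable def BW : Blocks (Module.End K (Word S Λ →₀ K)) I Λ where
  X := B.X
  L := B.L
  ε := E K B oS
  io := Io K B oS
  pr := Pi' K B oS
  ε_idem o := lin_ext fun w => by
    by_cases h : At B oS o w
    · rw [Module.End.mul_apply, E_pos h, E_pos h]
    · rw [Module.End.mul_apply, E_neg h, map_zero]
  ε_io ρ b := lin_ext fun w => by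
    rw [Module.End.mul_apply]
    by_cases h : At B oS (B.L ρ b) w
    · replace h := cases_leaf h
      rcases h with h | ⟨w, rfl, h⟩
      · rw [io_free h, E_pos (at_io h)]
      · rw [io_pi h]
        split_ifs
        · rw [E_pos (at_tau h)]
        · rw [map_sub, E_pos (at_tau h), E_pos (at_c h)]
    · rw [io_neg h, map_zero]
  io_ε ρ b := lin_ext fun w => by
    rw [Module.End.mul_apply]
    by_cases h : At B oS (B.L ρ b) w
    · rw [E_pos h]
    · rw [E_neg h, io_neg h, map_zero]
  ε_pr ρ b := lin_ext fun w => by
    rw [Module.End.mul_apply]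
    by_cases h : At B oS (B.X ρ) w
    · replace h := cases_center h
      rcases h with h | ⟨b', w, rfl, h⟩ | ⟨w, rfl, h⟩
      · rw [pi_free h, E_pos (at_pi h)]
      · rw [pi_io h]
        split_ifs with e
        · rw [← e, E_pos (at_l h)]
        · rw [map_zero]
      · rw [pi_tau h]
        split_ifs with e
        · rw [e, E_pos (at_pi h)]
        · rw [map_zero]
    · rw [pi_neg h, map_zero]
  pr_ε ρ b := lin_ext fun w => by
    rw [Module.End.mul_apply]
    by_cases h : At B oS (B.X ρ) w
    · rw [E_pos h]
    · rw [E_neg h, pi_neg h, map_zero]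
  pr_io ρ b := lin_ext fun w => by
    rw [Module.End.mul_apply]
    by_cases h : At B oS (B.L ρ b) w
    · rw [E_pos h]
      replace h := cases_leaf h
      rcases h with h | ⟨w, rfl, h⟩
      · rw [io_free h, pi_io h, if_pos rfl]
      · rw [io_pi h]
        cases b
        · simp [pi_tau h, pi_free h]
        · simp [pi_tau h]
    · rw [E_neg h, io_neg h, map_zero]
  pr_io' ρ b := lin_ext fun w => by
    rw [Module.End.mul_apply, LinearMap.zero_apply]
    by_cases h : At B oS (B.L ρ (!b)) w
    · replace h := cases_leaf h
      rcases h with h | ⟨w, rfl, h⟩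
      · rw [io_free h, pi_io h, if_neg (by simp)]
      · rw [io_pi h]
        cases b
        · simp [pi_tau h]
        · simp [pi_tau h, pi_free h]
    · rw [io_neg h, map_zero]
  sum ρ := lin_ext fun w => by
    rw [LinearMap.add_apply, Module.End.mul_apply, Module.End.mul_apply]
    by_cases h : At B oS (B.X ρ) w
    · rw [E_pos h]
      replace h := cases_center h
      rcases h with h | ⟨b', w, rfl, h⟩ | ⟨w, rfl, h⟩
      · simp [pi_free h, io_pi h]
      · cases b' <;> simp [pi_io h, io_free h]
      · simp [pi_tau h, io_pi h]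
    · rw [E_neg h, pi_neg h, pi_neg h, map_zero, map_zero, add_zero]

variable {K B oS}

theorem BW_pobj (P : Λ × Option Bool) : (BW K B oS).pobj P = B.pobj P := by
  obtain ⟨ρ, _ | c⟩ := P <;> rfl

theorem map_supported {V : Type*} [AddCommGroup V] [Module K V] (f : (Word S Λ →₀ K) →ₗ[K] V)
    {T : Set (Word S Λ)} {Q : Submodule K V} (h : ∀ w ∈ T, f (single w 1) ∈ Q)
    {v : Word S Λ →₀ K} (hv : v ∈ supported K K T) : f v ∈ Q := by
  rw [supported_eq_span_single] at hv
  refine (Submodule.span_le (p := Q.comap f)).2 ?_ hv
  rintro _ ⟨w, hw, rfl⟩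
  exact h w hw

theorem E_of_supported {v : Word S Λ →₀ K} (hv : v ∈ supported K K {w | At B oS o w}) :
    E K B oS o v = v := by
  have := map_supported (E K B oS o - LinearMap.id) (Q := ⊥) (fun w hw => by
    rw [Submodule.mem_bot, LinearMap.sub_apply, E_pos hw]
    simp) hv
  rwa [Submodule.mem_bot, LinearMap.sub_apply, sub_eq_zero] at this

theorem E_supported (v : Word S Λ →₀ K) : E K B oS o v ∈ supported K K {w | At B oS o w} := by
  refine map_supported (E K B oS o) (T := Set.univ) (fun w _ => ?_) (by simp)
  by_cases h : At B oS o w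
  · rw [E_pos h]
    exact single_mem_supported _ _ h
  · rw [E_neg h]
    exact zero_mem _

variable (K B oS)

/-- The length filtrations of the module of words. -/
noncomputable def FW : Filt K (BW K B oS) (Word S Λ →₀ K) where
  Fl n o := supported K K {w | At B oS o w ∧ w.len < n}
  FP n P := supported K K {w | At B oS (B.pobj P) w ∧ (w.len < n ∨ (w.len = n ∧ w.lp = some P))}
  Oth n P := supported K K {w | w.len < n ∨ (w.len = n ∧ w.lp ≠ some P)}
  typ n o v hv := E_of_supported (supported_mono (fun _ h => h.1) hv)
  zero o := by simp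
  zeroP P := by
    rw [← supported_empty]
    congr 1
    ext w
    cases w <;> simp [len, lp]
  le1 n P := supported_mono (fun w h => ⟨by rw [← BW_pobj (K := K) (oS := oS)]; exact h.1, Or.inl h.2⟩)
  le2 n P := supported_mono (fun w h => ⟨by rw [BW_pobj]; exact h.1, by have := h.2; omega⟩)
  mono n o := supported_mono (fun w h => ⟨h.1, by have := h.2; omega⟩)
  pr_FP n ρ b v hv := by
    refine map_supported (Pi' K B oS ρ b) (fun w hw => ?_) hv
    obtain ⟨h, hl⟩ := hw
    replace h := cases_center h
    rcases h with h | ⟨b', w, rfl, h⟩ | ⟨w, rfl, h⟩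
    · rw [pi_free h]
      refine single_mem_supported _ _ ⟨at_pi h, ?_⟩
      have := h.2.2
      simp only [len, lp, Kind.en, and_true]
      rcases hl with hl | hl
      · omega
      · exact absurd hl.2 this
    · rw [pi_io h]
      split_ifs with e
      · subst e
        refine single_mem_supported _ _ ⟨h.at, Or.inl ?_⟩
        simp only [len] at hl
        omega
      · exact zero_mem _
    · rw [pi_tau h]
      split_ifs with e
      · subst e
        refine single_mem_supported _ _ ⟨at_pi h, ?_⟩
        simp only [len, lp, Kind.en, and_true] at hl ⊢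
        exact hl
      · exact zero_mem _
  io_FP n ρ b v hv := by
    refine map_supported (Io K B oS ρ b) (fun w hw => ?_) hv
    obtain ⟨h, hl⟩ := hw
    replace h := cases_leaf h
    rcases h with h | ⟨w, rfl, h⟩
    · rw [io_free h]
      refine single_mem_supported _ _ ⟨at_io h, ?_⟩
      have := h.2.2
      simp only [len, lp, Kind.en, and_true]
      rcases hl with hl | hl
      · omega
      · exact absurd hl.2 this
    · rw [io_pi h]
      simp only [len, lp, Kind.en, and_true] at hl
      have h1 : single (cons ρ .tau w) (1 : K) ∈ supported K K {w | At B oS (B.pobj (ρ, none)) w ∧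
          (w.len < n ∨ (w.len = n ∧ w.lp = some (ρ, none)))} := by
        refine single_mem_supported _ _ ⟨at_tau h, ?_⟩
        simp only [len, lp, Kind.en, and_true]
        exact hl
      split_ifs
      · exact h1
      · exact sub_mem (single_mem_supported _ _ ⟨h.at, Or.inl (by omega)⟩) h1
  f3 n ρ b u hu hp := by
    classical
    rw [mem_supported] at hu ⊢
    intro w hw
    obtain ⟨h1, h2⟩ := hu hw
    refine ⟨h1, ?_⟩
    by_contra hcon
    have h3 : w.len = n := by omega
    have h4 : free B oS (ρ, none) w := ⟨h1.1, h1.2, fun e => hcon (Or.inr ⟨h3, e⟩)⟩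
    have h5 : Pi' K B oS ρ b (u.erase w) ∈ supported K K {cons ρ (.pi b) w}ᶜ := by
      refine map_supported (Pi' K B oS ρ b) (T := {w' | At B oS (B.X ρ) w' ∧ w'.len < n + 1 ∧ w' ≠ w})
        (fun w' hw' => ?_) ?_
      · obtain ⟨h, hl, hne⟩ := hw'
        replace h := cases_center h
        rcases h with h | ⟨b', w', rfl, h⟩ | ⟨w', rfl, h⟩
        · rw [pi_free h]
          exact single_mem_supported _ _ (by simpa using hne)
        · rw [pi_io h]
          split_ifs
          · refine single_mem_supported _ _ ?_
            rintro rfl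
            simp only [len] at hl
            omega
          · exact zero_mem _
        · rw [pi_tau h]
          split_ifs
          · refine single_mem_supported _ _ (fun e => ?_)
            have := congrArg len (Set.mem_singleton_iff.1 e)
            simp only [len] at hl this
            omega
          · exact zero_mem _
      · rw [mem_supported]
        intro w' hw'
        rw [support_erase, Finset.mem_coe, Finset.mem_erase] at hw'
        exact ⟨(hu hw'.2).1, (hu hw'.2).2, hw'.1⟩
    have h6 : Pi' K B oS ρ b u (cons ρ (.pi b) w) = 0 := by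
      refine (mem_supported' K _).1 hp _ (fun e => ?_)
      have := e.2
      simp only [len] at this
      omega
    rw [← single_add_erase w u, map_add, Finsupp.add_apply, (mem_supported' K _).1 h5 _ (by simp),
      ← mul_one (u w), ← smul_eq_mul, ← smul_single, map_smul, pi_free h4] at h6
    exact mem_support_iff.1 hw (by simpa using h6)
  oth1 n P := supported_mono (fun w h => Or.inl h.2)
  oth2 n P P' hne _ := supported_mono (fun w h => by
    rcases h.2 with h | h
    · exact Or.inl h
    · exact Or.inr ⟨h.1, by rw [h.2]; simpa using hne⟩)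
  oth3 n P v h1 h2 := by
    rw [mem_supported] at h1 h2 ⊢
    intro w hw
    refine ⟨by rw [BW_pobj]; exact (h1 hw).1, ?_⟩
    rcases (h1 hw).2 with h | h
    · exact h
    · rcases h2 hw with h' | h'
      · exact h'
      · exact absurd h.2 h'.2

variable {K B oS}

theorem FW_exhaust (v : Word S Λ →₀ K) (o : I) : ∃ n, E K B oS o v ∈ (FW K B oS).Fl n o := by
  refine ⟨(E K B oS o v).support.sup len + 1, (mem_supported K _).2 (fun w hw => ⟨?_, ?_⟩)⟩
  · exact (mem_supported K _).1 (E_supported v) hw
  · exact Nat.lt_succ_of_le (Finset.le_sup (f := len) hw)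

end Word

end Pool.Agent.H104Z.Berg
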